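import Mathlib

/-!
# Quadratic polynomials and the Liouville function: the algebraic identities
-/

set_option autoImplicit false

namespace Pool.Agent.H15Quad

/-- `g(n) = n² + b n + a c`, so that `g(a n) = a f(n)` for `f = a X² + b X + c`. -/
def gq (a b c n : ℤ) : ℤ := n ^ 2 + b * n + a * c

lemma gq_mul (a b c n : ℤ) : gq a b c (a * n) = a * (a * n ^ 2 + b * n + c) := by
  unfold gq; ring

/-- The pair relation. -/
lemma pair_id {a b c A C m x y x' y' : ℤ} (h : A * C = m ^ 2 + b * m + a * c) :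
    (y * y' * C - (x' * y + x * y') * m - x * y' * b + A * x * x') ^ 2
      + b * (y * y' * C - (x' * y + x * y') * m - x * y' * b + A * x * x') * (x * y' - x' * y)
      + a * c * (x * y' - x' * y) ^ 2
    = (A * x ^ 2 - (2 * m + b) * x * y + C * y ^ 2)
      * (A * x' ^ 2 - (2 * m + b) * x' * y' + C * y' ^ 2) := by
  linear_combination (-(x * y' - x' * y) ^ 2) * h

/-- The four-term chain: from a solution `(S, A)` of `S² - 4 M A² = D Y²` with suitable congruences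
one gets four values of `f` whose product with `M` is a perfect square. -/
lemma chain {a b c s Y M p x₃ d y x A S : ℤ} {i : ℕ} (hA : A ≠ 0)
    (hx₃ : Y * x₃ = (s + b * Y) * p - 1) (ha₃ : a ∣ x₃ - b * p)
    (had : a ∣ d) (hx : x = d * y - p ^ i) (hxy : x * p - x₃ * y = -1)
    (hSA : S ^ 2 - 4 * M * A ^ 2 = (b ^ 2 - 4 * (a * c)) * Y ^ 2)
    (hS : 2 * a * Y ∣ S - (2 * s + b * Y)) (hA1 : 2 * a * Y ∣ A - 1)
    (hpY : IsCoprime (p ^ i) Y) (hpa : IsCoprime (p ^ i) a)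
    (hpi : p ^ i ∣ (M + (Y * d - (s + b * Y)) ^ 2) * A + (Y * d - (s + b * Y)) * S) :
    ∃ k₁ k₂ k₃ k₄ φ₁ φ₂ φ₃ : ℤ,
      a * (a * k₁ ^ 2 + b * k₁ + c) = A * φ₁ ∧
      p ^ i * p ^ i * (a * (a * k₂ ^ 2 + b * k₂ + c)) = φ₁ * φ₂ ∧
      a * (a * k₃ ^ 2 + b * k₃ + c) = φ₂ * φ₃ ∧
      a * (a * k₄ ^ 2 + b * k₄ + c) = M * A * φ₃ ∧
      2 * Y ^ 2 * a * k₁ = 2 * A * ((Y * d - (s + b * Y)) * (-Y) + M * 1 * 0)
        + S * (1 * (-Y) + 0 * (Y * d - (s + b * Y))) - b * Y ^ 2 * 1 ∧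
      2 * Y ^ 2 * p ^ i * a * k₂ = 2 * A * ((Y * d - (s + b * Y)) * (Y * x - (s + b * Y) * y) + M * 1 * y)
        + S * (1 * (Y * x - (s + b * Y) * y) + y * (Y * d - (s + b * Y))) - b * Y ^ 2 * p ^ i ∧
      2 * Y ^ 2 * a * k₃ = 2 * A * ((Y * x - (s + b * Y) * y) * 1 + M * y * (-p))
        + S * (y * 1 + (-p) * (Y * x - (s + b * Y) * y)) - b * Y ^ 2 * 1 ∧
      2 * Y ^ 2 * a * k₄ = 2 * A * (0 * 1 + M * (-Y) * (-p))
        + S * ((-Y) * 1 + (-p) * 0) - b * Y ^ 2 * 1 := by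
  obtain ⟨s', hs'⟩ := hS
  obtain ⟨a', ha'⟩ := hA1
  set Xc : ℤ := s + b * Y with hXc
  set m : ℤ := a * (2 * Xc * a' - s') with hm
  have hmY : 2 * Y * m = -S - b * Y + 2 * Xc * A := by
    have h1 : S = 2 * s + b * Y + 2 * a * Y * s' := by linarith
    have h2 : A = 1 + 2 * a * Y * a' := by linarith
    rw [h1, h2, hm, hXc]; ring
  have ham : a ∣ m := ⟨_, rfl⟩
  have hcopAY : IsCoprime A (Y ^ 2) := by
    apply IsCoprime.pow_right
    refine ⟨1, -(2 * a * a'), ?_⟩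
    linear_combination ha'
  have hcopAa : IsCoprime A a := by
    refine ⟨1, -(2 * Y * a'), ?_⟩
    linear_combination ha'
  have hg : Y ^ 2 * (m ^ 2 + b * m + a * c) = A * ((M + Xc ^ 2) * A - Xc * S) := by
    have h4 : 4 * (Y ^ 2 * (m ^ 2 + b * m + a * c)) = 4 * (A * ((M + Xc ^ 2) * A - Xc * S)) := by
      linear_combination (2 * Y * m - S - b * Y + 2 * Xc * A + 2 * b * Y) * hmY + hSA
    linarith
  obtain ⟨C, hC⟩ : A ∣ m ^ 2 + b * m + a * c := by
    apply hcopAY.dvd_of_dvd_mul_left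
    exact ⟨_, hg⟩
  have hYC : Y ^ 2 * C = (M + Xc ^ 2) * A - Xc * S := by
    apply mul_left_cancel₀ hA
    rw [hC] at hg
    linear_combination hg
  have haC : a ∣ C := by
    apply hcopAa.symm.dvd_of_dvd_mul_left
    rw [← hC]
    exact dvd_add (dvd_add (dvd_pow ham (by norm_num)) (Dvd.dvd.mul_left ham _)) ⟨c, rfl⟩
  have hC' : A * C = m ^ 2 + b * m + a * c := hC.symm
  -- the value at the cusp `d`
  have hφd : Y ^ 2 * (A * d ^ 2 - (2 * m + b) * d + C)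
      = (M + (Y * d - Xc) ^ 2) * A + (Y * d - Xc) * S := by
    linear_combination hYC - d * Y * hmY
  obtain ⟨q, hq⟩ : p ^ i ∣ A * d ^ 2 - (2 * m + b) * d + C := by
    apply (hpY.pow_right (n := 2)).dvd_of_dvd_mul_left
    rw [hφd]
    exact hpi
  have haq : a ∣ q := by
    apply hpa.symm.dvd_of_dvd_mul_left
    rw [← hq]
    exact dvd_add (dvd_sub (Dvd.dvd.mul_left (dvd_pow had (by norm_num)) _)
      (Dvd.dvd.mul_left had _)) haC
  -- the four integers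
  have h1 : a ∣ m - A * d := dvd_sub ham (Dvd.dvd.mul_left had _)
  have h2 : a ∣ y * q + m - A * d := by
    rw [add_sub_assoc]
    exact dvd_add (Dvd.dvd.mul_left haq _) h1
  have haA : a ∣ A - 1 := ⟨2 * Y * a', by rw [ha']; ring⟩
  have h3' : a ∣ A * x₃ - b * p := by
    have : A * x₃ - b * p = (A - 1) * x₃ + (x₃ - b * p) := by ring
    rw [this]
    exact dvd_add (Dvd.dvd.mul_right haA _) ha₃
  have h3 : a ∣ -(y * p) * C + (x₃ * y + x * p) * m + x * p * b - A * x * x₃ := by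
    have : -(y * p) * C + (x₃ * y + x * p) * m + x * p * b - A * x * x₃
        = -(y * p) * C + (x₃ * y + x * p) * m + (-x) * (A * x₃ - b * p) := by ring
    rw [this]
    exact dvd_add (dvd_add (Dvd.dvd.mul_left haC _) (Dvd.dvd.mul_left ham _))
      (Dvd.dvd.mul_left h3' _)
  have h4 : a ∣ Y * p * C - (x₃ * Y + Xc * p) * m - Xc * p * b + A * Xc * x₃ := by
    have : Y * p * C - (x₃ * Y + Xc * p) * m - Xc * p * b + A * Xc * x₃
        = Y * p * C - (x₃ * Y + Xc * p) * m + Xc * (A * x₃ - b * p) := by ring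
    rw [this]
    exact dvd_add (dvd_sub (Dvd.dvd.mul_left haC _) (Dvd.dvd.mul_left ham _))
      (Dvd.dvd.mul_left h3' _)
  obtain ⟨k₁, hk₁⟩ := h1
  obtain ⟨k₂, hk₂⟩ := h2
  obtain ⟨k₃, hk₃⟩ := h3
  obtain ⟨k₄, hk₄⟩ := h4
  have hΔ2 : d * y - x * 1 = p ^ i := by rw [hx]; ring
  have e2 : 1 * y * C - (x * 1 + d * y) * m - d * y * b + A * d * x
      = p ^ i * (y * q + m - A * d) := by
    rw [hx]; linear_combination y * hq
  have hΔ3 : x * (-p) - (-x₃) * y = 1 := by linarith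
  have e3 : y * (-p) * C - ((-x₃) * y + x * (-p)) * m - x * (-p) * b + A * x * (-x₃)
      = a * k₃ := by rw [← hk₃]; ring
  have hΔ4 : (-Xc) * (-p) - (-x₃) * (-Y) = 1 := by linarith
  have e4 : (-Y) * (-p) * C - ((-x₃) * (-Y) + (-Xc) * (-p)) * m - (-Xc) * (-p) * b
      + A * (-Xc) * (-x₃) = a * k₄ := by rw [← hk₄]; ring
  have hφ4 : A * (-Xc) ^ 2 - (2 * m + b) * (-Xc) * (-Y) + C * (-Y) ^ 2 = M * A := by
    linear_combination hYC - Xc * hmY
  refine ⟨k₁, k₂, k₃, k₄, A * d ^ 2 - (2 * m + b) * d + C,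
    A * x ^ 2 - (2 * m + b) * x * y + C * y ^ 2, A * x₃ ^ 2 - (2 * m + b) * x₃ * p + C * p ^ 2,
    ?_, ?_, ?_, ?_, ?_, ?_, ?_, ?_⟩
  · rw [← gq_mul, ← hk₁]
    unfold gq
    linear_combination -hC'
  · rw [← gq_mul, ← hk₂]
    unfold gq
    have h := pair_id (x := d) (y := 1) (x' := x) (y' := y) hC'
    rw [e2, hΔ2] at h
    linear_combination h
  · rw [← gq_mul]
    unfold gq
    have h := pair_id (x := x) (y := y) (x' := -x₃) (y' := -p) hC'
    rw [e3, hΔ3] at h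
    linear_combination h
  · rw [← gq_mul]
    unfold gq
    have h := pair_id (x := -Xc) (y := -Y) (x' := -x₃) (y' := -p) hC'
    rw [e4, hΔ4, hφ4] at h
    linear_combination h
  · linear_combination (-2 * Y ^ 2) * hk₁ + Y * hmY
  · have h5 : 2 * Y ^ 2 * p ^ i * a * k₂ = 2 * Y ^ 2 * (p ^ i * (y * q + m - A * d)) := by
      rw [hk₂]; ring
    rw [h5, ← e2]
    linear_combination (2 * y) * hYC - (x + d * y) * Y * hmY - b * Y ^ 2 * hΔ2
  · have h5 : 2 * Y ^ 2 * a * k₃ = 2 * Y ^ 2 * (a * k₃) := by ring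
    rw [h5, ← e3]
    linear_combination (-2 * y * p) * hYC + (x₃ * y + x * p) * Y * hmY - b * Y ^ 2 * hΔ3
      - (2 * A * (Y * x - Xc * y) + S * y) * hx₃
  · have h5 : 2 * Y ^ 2 * a * k₄ = 2 * Y ^ 2 * (a * k₄) := by ring
    rw [h5, ← e4]
    linear_combination (2 * Y * p) * hYC - (x₃ * Y + Xc * p) * Y * hmY - b * Y ^ 2 * hΔ4
      + (Y * S) * hx₃

end Pool.Agent.H15Quad
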