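import Pool.Agent.Lib_helper15.Quad.Pell

/-!
# Quadratic polynomials and the Liouville function: lifting a divisibility along a Pell orbit
-/

set_option autoImplicit false

namespace Pool.Agent.H15Quad

/-- The unit `(U, V)` has exact `p`-adic level `ρ`. -/
structure Lvl (p : ℤ) (ρ : ℕ) (U V : ℤ) : Prop where
  dvdV : p ^ ρ ∣ V
  ndvdV : ¬ p ^ (ρ + 1) ∣ V
  dvdU : p ^ (2 * ρ) ∣ U - 1

/-- from the valuation of `V` one gets the valuation of `U - 1`. -/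
lemma dvd_U_sub_one {M p U V : ℤ} {ρ : ℕ} (hp : Prime p) (hp2 : ¬ p ∣ 2)
    (h : U ^ 2 - 4 * M * V ^ 2 = 1) (hU : p ∣ U - 1) (hV : p ^ ρ ∣ V) :
    p ^ (2 * ρ) ∣ U - 1 := by
  have h1 : ¬ p ∣ U + 1 := by
    intro h2
    apply hp2
    have : (2 : ℤ) = (U + 1) - (U - 1) := by ring
    rw [this]
    exact dvd_sub h2 hU
  have h2 : IsCoprime (p ^ (2 * ρ)) (U + 1) := by
    apply IsCoprime.pow_left
    exact (Prime.coprime_iff_not_dvd hp).mpr h1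
  apply h2.dvd_of_dvd_mul_right
  have h3 : (U - 1) * (U + 1) = 4 * M * V ^ 2 := by linear_combination h
  rw [h3]
  have h4 : p ^ (2 * ρ) ∣ V ^ 2 := by
    rw [mul_comm 2 ρ, pow_mul]
    exact pow_dvd_pow_of_dvd hV 2
  exact Dvd.dvd.mul_left h4 _

lemma lvl_succ {M R U V : ℤ} {p : ℕ} (hp : p.Prime) (hp2 : ¬ (p : ℤ) ∣ 2) (hM : 0 < M) {ρ : ℕ}
    (hρ : 1 ≤ ρ) (hu : Unt M R U V) (hV : 0 < V) (hl : Lvl p ρ U V) :
    ∃ U' V' : ℤ, Unt M R U' V' ∧ 0 < V' ∧ Lvl p (ρ + 1) U' V' := by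
  have hpZ : Prime (p : ℤ) := Nat.prime_iff_prime_int.mp hp
  have hq2 : (p : ℤ) ^ (2 * ρ) ∣ V ^ 2 := by
    rw [mul_comm 2 ρ, pow_mul]
    exact pow_dvd_pow_of_dvd hl.dvdV 2
  obtain ⟨hA, hB⟩ := pw_cong (M := M) hl.dvdU hq2 p
  have hunt := hu.pow hM hV p
  have hpos := (pw_pos hM hu.pU hV p).2.2 hp.one_lt.le
  generalize (pw M U V p).1 = U' at hA hunt
  generalize (pw M U V p).2 = V' at hB hunt hpos
  obtain ⟨w, hw⟩ := hB
  obtain ⟨v, hv⟩ := hl.dvdV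
  obtain ⟨e, he⟩ : ∃ e, 2 * ρ = e + 1 := ⟨2 * ρ - 1, by omega⟩
  have he1 : 1 ≤ e := by omega
  have hV' : V' = (p : ℤ) ^ (ρ + 1) * (v * (1 + (p : ℤ) ^ e * w)) := by
    have : V' = p * V + (p : ℤ) ^ (2 * ρ) * V * w := by linarith
    rw [this, he, hv]; ring
  have hpne : (p : ℤ) ≠ 0 := hpZ.ne_zero
  refine ⟨U', V', hunt, hpos, ⟨⟨_, hV'⟩, ?_, ?_⟩⟩
  · intro h
    rw [hV', pow_succ (p : ℤ) (ρ + 1)] at h
    have h1 := (mul_dvd_mul_iff_left (pow_ne_zero (ρ + 1) hpne)).mp h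
    rcases hpZ.dvd_or_dvd h1 with h2 | h2
    · apply hl.ndvdV
      rw [hv, pow_succ]
      exact mul_dvd_mul_left _ h2
    · have h3 : (p : ℤ) ∣ (p : ℤ) ^ e * w :=
        Dvd.dvd.mul_right (dvd_pow_self _ (by omega)) _
      have h4 : (p : ℤ) ∣ 1 := by
        have : (1 : ℤ) = (1 + (p : ℤ) ^ e * w) - (p : ℤ) ^ e * w := by ring
        rw [this]
        exact dvd_sub h2 h3
      exact hpZ.not_isUnit (isUnit_of_dvd_one h4)
  · apply dvd_U_sub_one hpZ hp2 hunt.eq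
    · exact (dvd_pow_self _ (by omega)).trans hA
    · exact ⟨_, hV'⟩

/-- The linear functional that has to be made divisible by a power of `p`. -/
def Wf (M h S A : ℤ) : ℤ := (M + h ^ 2) * A + h * S

/-- Its companion. -/
def Lf (M h S A : ℤ) : ℤ := (M + h ^ 2) * S + 4 * M * h * A

lemma Lf_sq (M h S A : ℤ) :
    Lf M h S A ^ 2 - 4 * M * Wf M h S A ^ 2 = (M - h ^ 2) ^ 2 * (S ^ 2 - 4 * M * A ^ 2) := by
  unfold Lf Wf; ring

lemma Wf_mul (M h S A U V : ℤ) :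
    Wf M h (U * S + 4 * M * V * A) (U * A + V * S) = U * Wf M h S A + V * Lf M h S A := by
  unfold Wf Lf; ring

/-- Solving a linear congruence modulo a prime. -/
lemma solve_mod {p : ℕ} (hp : p.Prime) {α β : ℤ} (hβ : ¬ (p : ℤ) ∣ β) :
    ∃ t : ℕ, (p : ℤ) ∣ α + t * β := by
  have hpZ : Prime (p : ℤ) := Nat.prime_iff_prime_int.mp hp
  obtain ⟨u, v, huv⟩ := (Prime.coprime_iff_not_dvd hpZ).mpr hβ
  -- u p + v β = 1
  have hppos : (0 : ℤ) < p := by exact_mod_cast hp.pos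
  refine ⟨((-α * v) % p).toNat, ?_⟩
  have h0 : 0 ≤ (-α * v) % (p : ℤ) := Int.emod_nonneg _ hppos.ne'
  rw [Int.toNat_of_nonneg h0]
  have h1 : (p : ℤ) ∣ (-α * v) % (p : ℤ) - (-α * v) := by
    have := Int.emod_emod_of_dvd (-α * v) (dvd_refl (p : ℤ))
    exact (Int.ModEq.dvd (Int.mod_modEq (-α * v) p).symm)
  have h2 : α + (-α * v) % (p : ℤ) * β
      = α * (1 - v * β) + ((-α * v) % (p : ℤ) - (-α * v)) * β := by ring
  rw [h2]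
  refine dvd_add ?_ (Dvd.dvd.mul_right h1 _)
  have h3 : 1 - v * β = u * p := by linarith
  rw [h3]
  exact ⟨α * u, by ring⟩

lemma hensel_step {M E R S₀ h : ℤ} {p : ℕ} (hp : p.Prime) (hM : 0 < M)
    (hpE : ¬ (p : ℤ) ∣ E) (hph : ¬ (p : ℤ) ∣ M - h ^ 2) {ρ : ℕ} (hρ : 1 ≤ ρ)
    {U V : ℤ} (hu : Unt M R U V) (hV : 0 < V) (hl : Lvl p ρ U V)
    {S A : ℤ} (hg : Good M E R S₀ S A) (hW : (p : ℤ) ^ ρ ∣ Wf M h S A) :
    ∃ S' A' : ℤ, Good M E R S₀ S' A' ∧ (p : ℤ) ^ (ρ + 1) ∣ Wf M h S' A' := by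
  have hpZ : Prime (p : ℤ) := Nat.prime_iff_prime_int.mp hp
  have hpne : (p : ℤ) ≠ 0 := hpZ.ne_zero
  have hpW : (p : ℤ) ∣ Wf M h S A := (dvd_pow_self _ (by omega)).trans hW
  have hL : ¬ (p : ℤ) ∣ Lf M h S A := by
    intro hcon
    have h1 : (p : ℤ) ∣ (M - h ^ 2) ^ 2 * E := by
      rw [← hg.eq, ← Lf_sq]
      exact dvd_sub (dvd_pow hcon (by norm_num)) (Dvd.dvd.mul_left (dvd_pow hpW (by norm_num)) _)
    rcases hpZ.dvd_or_dvd h1 with h2 | h2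
    · exact hph (hpZ.dvd_of_dvd_pow h2)
    · exact hpE h2
  obtain ⟨α, hα⟩ := hW
  obtain ⟨v, hv⟩ := hl.dvdV
  have hpv : ¬ (p : ℤ) ∣ v := by
    intro h1
    apply hl.ndvdV
    rw [hv, pow_succ]
    exact mul_dvd_mul_left _ h1
  have hβ : ¬ (p : ℤ) ∣ v * Lf M h S A := by
    intro h1
    rcases hpZ.dvd_or_dvd h1 with h2 | h2
    · exact hpv h2
    · exact hL h2
  obtain ⟨t, ht⟩ := solve_mod hp (α := α) hβ
  have hq2 : (p : ℤ) ^ (2 * ρ) ∣ V ^ 2 := by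
    rw [mul_comm 2 ρ, pow_mul]
    exact pow_dvd_pow_of_dvd hl.dvdV 2
  obtain ⟨hA, hB⟩ := pw_cong (M := M) hl.dvdU hq2 t
  have hunt := hu.pow hM hV t
  have hgood := hg.mul hM hunt
  refine ⟨_, _, hgood, ?_⟩
  rw [Wf_mul]
  generalize (pw M U V t).1 = U' at hA
  generalize (pw M U V t).2 = V' at hB
  have h1 : U' * Wf M h S A + V' * Lf M h S A
      = (U' - 1) * Wf M h S A + (V' - t * V) * Lf M h S A
        + (p : ℤ) ^ ρ * (α + t * (v * Lf M h S A)) := by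
    rw [hα]
    rw [hv]
    ring
  rw [h1]
  have h2 : (p : ℤ) ^ (ρ + 1) ∣ (p : ℤ) ^ (2 * ρ) := pow_dvd_pow _ (by omega)
  refine dvd_add (dvd_add ?_ ?_) ?_
  · exact Dvd.dvd.mul_right (h2.trans hA) _
  · exact Dvd.dvd.mul_right (h2.trans ((dvd_mul_right _ _).trans hB)) _
  · rw [pow_succ]
    exact mul_dvd_mul_left _ ht

/-- Arbitrarily high powers of `p` divide `Wf` along the orbit. -/
lemma hensel {M E R S₀ h : ℤ} {p : ℕ} (hp : p.Prime) (hp2 : ¬ (p : ℤ) ∣ 2) (hM : 0 < M)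
    (hpE : ¬ (p : ℤ) ∣ E) (hph : ¬ (p : ℤ) ∣ M - h ^ 2) {r : ℕ} (hr : 1 ≤ r)
    {U V : ℤ} (hu : Unt M R U V) (hV : 0 < V) (hl : Lvl p r U V)
    {S A : ℤ} (hg : Good M E R S₀ S A) (hW : (p : ℤ) ^ r ∣ Wf M h S A) (i : ℕ) :
    ∃ S' A' : ℤ, Good M E R S₀ S' A' ∧ (p : ℤ) ^ i ∣ Wf M h S' A' := by
  have key : ∀ j : ℕ, (∃ U' V' : ℤ, Unt M R U' V' ∧ 0 < V' ∧ Lvl p (r + j) U' V') ∧
      ∃ S' A' : ℤ, Good M E R S₀ S' A' ∧ (p : ℤ) ^ (r + j) ∣ Wf M h S' A' := by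
    intro j
    induction j with
    | zero => exact ⟨⟨U, V, hu, hV, hl⟩, S, A, hg, hW⟩
    | succ j ih =>
      obtain ⟨⟨U', V', h1, h2, h3⟩, S', A', h4, h5⟩ := ih
      exact ⟨lvl_succ hp hp2 hM (show 1 ≤ r + j by omega) h1 h2 h3,
        hensel_step hp hM hpE hph (show 1 ≤ r + j by omega) h1 h2 h3 h4 h5⟩
  obtain ⟨-, S', A', h4, h5⟩ := key i
  exact ⟨S', A', h4, (pow_dvd_pow _ (by omega)).trans h5⟩

/-- Every unit with `p ∣ V ≠ 0` has a level. -/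
lemma exists_lvl {M R U V : ℤ} {p : ℕ} (hp : p.Prime) (hp2 : ¬ (p : ℤ) ∣ 2)
    (hu : Unt M R U V) (hV : 0 < V) (hpR : (p : ℤ) ∣ R) :
    ∃ r : ℕ, 1 ≤ r ∧ Lvl p r U V := by
  have hpZ : Prime (p : ℤ) := Nat.prime_iff_prime_int.mp hp
  have hfin : FiniteMultiplicity (p : ℤ) V :=
    FiniteMultiplicity.of_prime_left hpZ hV.ne'
  obtain ⟨n, hn1, hn2⟩ := hfin.exists_eq_pow_mul_and_not_dvd
  refine ⟨multiplicity (p : ℤ) V, ?_, ?_, ?_, ?_⟩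
  · have : (p : ℤ) ^ 1 ∣ V := by rw [pow_one]; exact hpR.trans hu.cV
    exact hfin.le_multiplicity_of_pow_dvd this
  · exact pow_multiplicity_dvd _ _
  · exact hfin.not_pow_dvd_of_multiplicity_lt (by omega)
  · exact dvd_U_sub_one hpZ hp2 hu.eq (hpR.trans hu.cU) (pow_multiplicity_dvd _ _)

end Pool.Agent.H15Quad
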