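import Pool.Agent.Lib_helper15.Quad.Omega
import Pool.Agent.Lib_helper15.Quad.Hensel

/-!
# Quadratic polynomials and the Liouville function: the prime `p`, the cusp `d` and the exponent `i`
-/

set_option autoImplicit false

namespace Pool.Agent.H15Quad

lemma jacobi_eq_one {D : ℤ} (W : ℕ) (hW : W ≠ 0)
    (h : ∀ q : ℕ, q.Prime → q ∣ W → jacobiSym D q = 1) : jacobiSym D W = 1 := by
  induction W using Nat.strong_induction_on with
  | _ W ih =>
    rcases eq_or_ne W 1 with rfl | hW1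
    · exact jacobiSym.one_right D
    · have hq := Nat.minFac_prime hW1
      obtain ⟨W', hW'⟩ := Nat.minFac_dvd W
      have hW'0 : W' ≠ 0 := by
        rintro rfl
        exact hW (by rw [hW']; simp)
      have hlt : W' < W := by
        calc W' = 1 * W' := (one_mul _).symm
          _ < W.minFac * W' := Nat.mul_lt_mul_of_pos_right hq.one_lt (Nat.pos_of_ne_zero hW'0)
          _ = W := hW'.symm
      have : NeZero W.minFac := ⟨hq.ne_zero⟩
      have : NeZero W' := ⟨hW'0⟩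
      have h1 : jacobiSym D W' = 1 := by
        apply ih W' hlt hW'0
        intro q hq' hqW
        exact h q hq' (hqW.trans ⟨W.minFac, by rw [mul_comm]; exact hW'⟩)
      rw [hW', jacobiSym.mul_right, h1, h _ hq (Nat.minFac_dvd W)]
      norm_num

/-- `D` is a square modulo every prime `p` with `p s ≡ 1 mod N`. -/
lemma exists_sqrt_mod {b e N s Y W P : ℤ} (hD : b ^ 2 - 4 * e ≠ 0)
    (hDN : 4 * (b ^ 2 - 4 * e) ∣ N) (hW : 0 < W) (hsW : N ∣ s - W)
    (hcop : IsCoprime s Y) (hnorm : s ^ 2 + b * s * Y + e * Y ^ 2 = P * W ^ 2)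
    {p : ℕ} (hp : p.Prime) (hps : N ∣ p * s - 1) :
    ∃ z : ℤ, (p : ℤ) ∣ z ^ 2 - (b ^ 2 - 4 * e) := by
  set D : ℤ := b ^ 2 - 4 * e with hDdef
  obtain ⟨w, hw⟩ : ∃ w : ℕ, (w : ℤ) = W := ⟨W.toNat, Int.toNat_of_nonneg hW.le⟩
  have hw0 : w ≠ 0 := by rintro rfl; rw [Nat.cast_zero] at hw; omega
  have hpW : N ∣ p * W - 1 := by
    have : p * W - 1 = (p * s - 1) - p * (s - W) := by ring
    rw [this]
    exact dvd_sub hps (Dvd.dvd.mul_left hsW _)
  have h4D : 4 * D ∣ p * W - 1 := hDN.trans hpW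
  have hDW : IsCoprime D W := by
    obtain ⟨k, hk⟩ := h4D
    exact ⟨-(4 * k), p, by linear_combination hk⟩
  have hodd : Odd (p * w) := by
    have h1 : (2 : ℤ) ∣ p * W - 1 := (dvd_trans ⟨2 * D, by ring⟩ h4D)
    have h2 : Odd ((p * w : ℕ) : ℤ) := by
      obtain ⟨k, hk⟩ := h1
      refine ⟨k, ?_⟩
      push_cast
      rw [hw]; linarith
    exact_mod_cast h2
  have hwodd : Odd w := (Nat.odd_mul.mp hodd).2
  -- the Jacobi symbol `(D | w)`
  have hJw : jacobiSym D w = 1 := by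
    apply jacobi_eq_one w hw0
    intro q hq hqw
    have : Fact q.Prime := ⟨hq⟩
    have hqZ : Prime (q : ℤ) := Nat.prime_iff_prime_int.mp hq
    have hqW : (q : ℤ) ∣ W := by rw [← hw]; exact_mod_cast hqw
    have hqD : ¬ (q : ℤ) ∣ D := by
      intro h1
      obtain ⟨u, v, huv⟩ := hDW
      have : (q : ℤ) ∣ 1 := by
        rw [← huv]
        exact dvd_add (Dvd.dvd.mul_left h1 _) (Dvd.dvd.mul_left hqW _)
      exact hqZ.not_isUnit (isUnit_of_dvd_one this)
    have hqY : ¬ (q : ℤ) ∣ Y := by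
      intro h1
      have h2 : (q : ℤ) ∣ s ^ 2 := by
        have : s ^ 2 = P * W * W - (b * s + e * Y) * Y := by linear_combination hnorm
        rw [this]
        exact dvd_sub (Dvd.dvd.mul_left hqW _) (Dvd.dvd.mul_left h1 _)
      have h3 := hqZ.dvd_of_dvd_pow h2
      obtain ⟨u, v, huv⟩ := hcop
      have : (q : ℤ) ∣ 1 := by
        rw [← huv]
        exact dvd_add (Dvd.dvd.mul_left h3 _) (Dvd.dvd.mul_left h1 _)
      exact hqZ.not_isUnit (isUnit_of_dvd_one this)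
    rw [← jacobiSym.legendreSym.to_jacobiSym]
    have hD0 : (D : ZMod q) ≠ 0 := by
      intro h; rw [ZMod.intCast_zmod_eq_zero_iff_dvd] at h; exact hqD h
    rw [legendreSym.eq_one_iff q hD0]
    have hY0 : (Y : ZMod q) ≠ 0 := by
      intro h; rw [ZMod.intCast_zmod_eq_zero_iff_dvd] at h; exact hqY h
    refine ⟨(2 * s + b * Y : ℤ) / (Y : ZMod q), ?_⟩
    have h1 : (2 * s + b * Y) ^ 2 = D * Y ^ 2 + 4 * P * W * W := by
      rw [hDdef]; linear_combination 4 * hnorm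
    have h2 : (((2 * s + b * Y) ^ 2 : ℤ) : ZMod q) = D * Y ^ 2 := by
      rw [h1]
      have : (W : ZMod q) = 0 := (ZMod.intCast_zmod_eq_zero_iff_dvd _ _).mpr hqW
      push_cast
      rw [this]; ring
    field_simp
    rw [← h2]; push_cast; ring
  have hJpw : jacobiSym D (p * w) = 1 := by
    rw [jacobiSym.mod_right D hodd]
    have h1 : (p * w) % (4 * D.natAbs) = 1 := by
      have h2 : p * w ≡ 1 [MOD 4 * D.natAbs] := by
        rw [Nat.ModEq.comm, Nat.modEq_iff_dvd]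
        have h3 : ((4 * D.natAbs : ℕ) : ℤ) ∣ p * W - 1 := by
          rw [Nat.cast_mul, Int.natCast_natAbs]
          have := (abs_dvd (4 * D) _).mpr h4D
          rw [abs_mul] at this
          simpa using this
        rw [← hw] at h3
        rw [Nat.cast_mul p w, Nat.cast_one]
        exact h3
      have h3 : 1 ≤ D.natAbs := Int.natAbs_pos.mpr hD
      unfold Nat.ModEq at h2
      rw [Nat.mod_eq_of_lt (show 1 < 4 * D.natAbs by omega)] at h2
      exact h2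
    rw [h1]
    exact jacobiSym.one_right D
  have hp0 : NeZero p := ⟨hp.ne_zero⟩
  have hw0' : NeZero w := ⟨hw0⟩
  have : Fact p.Prime := ⟨hp⟩
  rw [jacobiSym.mul_right, hJw, mul_one, ← jacobiSym.legendreSym.to_jacobiSym] at hJpw
  have hD0 : (D : ZMod p) ≠ 0 := by
    intro h
    rw [(legendreSym.eq_zero_iff p D).mpr h] at hJpw
    norm_num at hJpw
  obtain ⟨r, hr⟩ := (legendreSym.eq_one_iff p hD0).mp hJpw
  obtain ⟨z, hz⟩ := ZMod.intCast_surjective r
  refine ⟨z, ?_⟩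
  rw [← ZMod.intCast_zmod_eq_zero_iff_dvd]
  push_cast
  rw [hz, hr]; ring

/-- Square roots modulo powers of an odd prime. -/
lemma sqrt_lift_prime {D : ℤ} {p : ℕ} (hp : p.Prime) (hp2 : ¬ (p : ℤ) ∣ 2) (hpD : ¬ (p : ℤ) ∣ D)
    {z₀ : ℤ} (hz₀ : (p : ℤ) ∣ z₀ ^ 2 - D) (n : ℕ) : ∃ z : ℤ, (p : ℤ) ^ (n + 1) ∣ z ^ 2 - D := by
  have hpZ : Prime (p : ℤ) := Nat.prime_iff_prime_int.mp hp
  induction n with
  | zero => exact ⟨z₀, by simpa using hz₀⟩
  | succ n ih =>
    obtain ⟨z, α, hα⟩ := ih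
    have hpz : ¬ (p : ℤ) ∣ z := by
      intro h1
      apply hpD
      have h2 : D = z ^ 2 - (z ^ 2 - D) := by ring
      rw [h2, hα]
      exact dvd_sub (dvd_pow h1 (by norm_num)) (Dvd.dvd.mul_right (dvd_pow_self _ (by omega)) _)
    have hβ : ¬ (p : ℤ) ∣ 2 * z := by
      intro h1
      rcases hpZ.dvd_or_dvd h1 with h2 | h2
      · exact hp2 h2
      · exact hpz h2
    obtain ⟨t, ht⟩ := solve_mod hp (α := α) hβ
    refine ⟨z + (p : ℤ) ^ (n + 1) * t, ?_⟩
    have h1 : (z + (p : ℤ) ^ (n + 1) * t) ^ 2 - D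
        = (p : ℤ) ^ (n + 1) * (α + t * (2 * z)) + (p : ℤ) ^ (n + 1 + 1) * ((p : ℤ) ^ n * t ^ 2) := by
      have : (z + (p : ℤ) ^ (n + 1) * t) ^ 2 - D
        = (z ^ 2 - D) + (p : ℤ) ^ (n + 1) * (t * (2 * z))
          + (p : ℤ) ^ (n + 1 + 1) * ((p : ℤ) ^ n * t ^ 2) := by ring
      rw [this, hα]; ring
    rw [h1]
    refine dvd_add ?_ (dvd_mul_right _ _)
    rw [pow_succ (p : ℤ) (n + 1)]
    exact mul_dvd_mul_left _ ht

/-- The cusp `d`. -/
lemma exists_cusp {a b e : ℤ} (ha : 0 < a) {p : ℕ} (hp : p.Prime) (hp2a : ¬ (p : ℤ) ∣ 2 * a)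
    (hpD : ¬ (p : ℤ) ∣ b ^ 2 - 4 * e) {z₀ : ℤ} (hz₀ : (p : ℤ) ∣ z₀ ^ 2 - (b ^ 2 - 4 * e)) (r : ℕ)
    (L : ℤ) :
    ∃ d : ℤ, a ∣ d ∧ (p : ℤ) ^ r ∣ d ^ 2 - b * d + e ∧ d < L := by
  have hpZ : Prime (p : ℤ) := Nat.prime_iff_prime_int.mp hp
  have hp2 : ¬ (p : ℤ) ∣ 2 := fun h => hp2a (Dvd.dvd.mul_right h _)
  obtain ⟨z, hz⟩ := sqrt_lift_prime hp hp2 hpD hz₀ r
  have hcop : IsCoprime ((p : ℤ) ^ r) (2 * a) := by
    apply IsCoprime.pow_left
    exact (Prime.coprime_iff_not_dvd hpZ).mpr hp2a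
  obtain ⟨u, v, huv⟩ := hcop
  -- v * (2 a) = 1 - u p^r
  have hppos : (0 : ℤ) < (p : ℤ) ^ r := by
    have : (0 : ℤ) < p := by exact_mod_cast hp.pos
    positivity
  set q : ℤ := (p : ℤ) ^ r with hq
  refine ⟨a * (v * (b + z)) - a * q * (|a * (v * (b + z))| + |L| + 1), ?_, ?_, ?_⟩
  · exact dvd_sub (dvd_mul_right _ _) (Dvd.dvd.mul_right (dvd_mul_right _ _) _)
  · set d₀ : ℤ := a * (v * (b + z)) with hd₀
    set k : ℤ := |d₀| + |L| + 1 with hk
    have h1 : (d₀ - a * q * k) ^ 2 - b * (d₀ - a * q * k) + e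
        = (d₀ ^ 2 - b * d₀ + e) + q * (a * k * (b - 2 * d₀ + a * q * k)) := by ring
    rw [h1]
    refine dvd_add ?_ (dvd_mul_right _ _)
    have h2 : q ∣ 4 * (d₀ ^ 2 - b * d₀ + e) := by
      have h3 : 2 * d₀ - b = z - q * (u * (b + z)) := by
        rw [hd₀]
        linear_combination (b + z) * huv
      have h4 : 4 * (d₀ ^ 2 - b * d₀ + e)
          = (z ^ 2 - (b ^ 2 - 4 * e)) + q * (u * (b + z) * (q * (u * (b + z)) - 2 * z)) := by
        linear_combination (2 * d₀ - b + z - q * (u * (b + z))) * h3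
      rw [h4]
      exact dvd_add ((pow_dvd_pow _ (by omega)).trans hz) (dvd_mul_right _ _)
    have hcop4 : IsCoprime q 4 := by
      apply IsCoprime.pow_left
      rw [Prime.coprime_iff_not_dvd hpZ]
      intro h5
      have : (4 : ℤ) = 2 * 2 := by norm_num
      rw [this] at h5
      rcases hpZ.dvd_or_dvd h5 with h6 | h6 <;> exact hp2 h6
    exact hcop4.dvd_of_dvd_mul_left h2
  · set d₀ : ℤ := a * (v * (b + z)) with hd₀
    have h1 : (1 : ℤ) * (|d₀| + |L| + 1) ≤ a * q * (|d₀| + |L| + 1) := by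
      apply mul_le_mul_of_nonneg_right _ (by positivity)
      have : 0 < a * q := mul_pos ha hppos
      linarith
    have h2 := le_abs_self d₀
    have h3 := neg_abs_le L
    linarith

end Pool.Agent.H15Quad
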