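import Pool.Agent.Lib_helper15.Quad.Size

/-!
# Quadratic polynomials and the Liouville function: four values whose product is `P` times a square
-/

set_option autoImplicit false

namespace Pool.Agent.H15Quad

lemma not_dvd_of_abs_lt {p : ℕ} {m : ℤ} (hm : m ≠ 0) (h : |m| < p) : ¬ (p : ℤ) ∣ m := by
  intro h1
  have := Int.le_of_dvd (abs_pos.mpr hm) ((dvd_abs _ _).mpr h1)
  linarith

lemma four_values {a b c : ℤ} (ha : 0 < a) (hD : b ^ 2 - 4 * (a * c) ≠ 0) {P : ℕ} (hP : P.Prime)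
    (hPN : (4 * a * |b ^ 2 - 4 * (a * c)|) ^ 3 ∣ (P : ℤ) - 1) :
    ∃ C X₀ : ℤ, 0 < C ∧ ∀ X : ℤ, X₀ ≤ X → ∃ k₁ k₂ k₃ k₄ : ℤ,
      (X ≤ k₁ ∧ k₁ ≤ C * X) ∧ (X ≤ k₂ ∧ k₂ ≤ C * X) ∧ (X ≤ k₃ ∧ k₃ ≤ C * X) ∧
      (X ≤ k₄ ∧ k₄ ≤ C * X) ∧
      IsSquare ((P : ℤ) * ((a * k₁ ^ 2 + b * k₁ + c) * (a * k₂ ^ 2 + b * k₂ + c) *
        (a * k₃ ^ 2 + b * k₃ + c) * (a * k₄ ^ 2 + b * k₄ + c))) := by
  set D : ℤ := b ^ 2 - 4 * (a * c) with hDdef
  set N : ℤ := 4 * a * |D| with hN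
  have hDabs : 0 < |D| := abs_pos.mpr hD
  have hNpos : 0 < N := by positivity
  have hDN : 4 * D ∣ N := by
    rw [hN]
    have : 4 * D ∣ 4 * |D| := mul_dvd_mul_left 4 ((dvd_abs D D).mpr dvd_rfl)
    exact this.trans ⟨a, by ring⟩
  have hPpos : (0 : ℤ) < P := by exact_mod_cast hP.pos
  have hPD : 4 * D.natAbs < P := by
    have h1 : N ^ 3 ≤ (P : ℤ) - 1 := by
      apply Int.le_of_dvd _ hPN
      have : (1 : ℤ) < P := by exact_mod_cast hP.one_lt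
      linarith
    have h2 : 4 * |D| ≤ N := by
      rw [hN]
      nlinarith
    have h3 : N ≤ N ^ 3 := by
      have : (1 : ℤ) ≤ N := hNpos
      exact le_self_pow₀ this (by norm_num)
    have h4 : (4 : ℤ) * D.natAbs < P := by
      rw [Int.natCast_natAbs]; linarith
    exact_mod_cast h4
  obtain ⟨s, Y, W, hY, hW, hNY, hNs, hcop, hS₀, hnorm⟩ :=
    minus_element (b := b) (e := a * c) hD hNpos hDN hP hPD hPN
  set M : ℤ := P * W ^ 2 with hM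
  have hMpos : 0 < M := by positivity
  have hMsq : ¬ IsSquare M := by
    rintro ⟨k, hk⟩
    have h1 : k ^ 2 = (P : ℤ) * W ^ 2 := by rw [← hM, hk]; ring
    have h2 : ¬ IsSquare (P : ℤ) := by
      rintro ⟨k', hk'⟩
      apply hP.not_isSquare
      refine ⟨k'.natAbs, ?_⟩
      have := congrArg Int.natAbs hk'
      rwa [Int.natAbs_mul, Int.natAbs_natCast] at this
    exact hW.ne' (eq_zero_of_sq_eq h2 h1).2
  -- the prime `p`
  have haY : 0 < a * Y := mul_pos ha hY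
  have haN : a ∣ N := ⟨4 * |D|, by rw [hN]; ring⟩
  have hcopaY : IsCoprime s (a * Y) := by
    apply IsCoprime.mul_right _ hcop
    exact IsCoprime.of_isCoprime_of_dvd_right hcop (haN.trans hNY)
  obtain ⟨u, v, huv⟩ := hcopaY
  have hucop : IsCoprime u ((a * Y).toNat : ℤ) := by
    rw [Int.toNat_of_nonneg haY.le]
    exact ⟨s, v, by linarith⟩
  obtain ⟨p, hpbig, hp, hpu⟩ := Nat.forall_exists_prime_gt_and_zmodEq
    ((2 * a).natAbs + D.natAbs + M.natAbs + Y.natAbs + 2) (by omega) hucop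
  rw [Int.toNat_of_nonneg haY.le] at hpu
  have hpZ : Prime (p : ℤ) := Nat.prime_iff_prime_int.mp hp
  have hppos : (0 : ℤ) < p := by exact_mod_cast hp.pos
  have hp2le : (2 : ℤ) ≤ p := by exact_mod_cast hp.two_le
  have hbig : |2 * a| + |D| + |M| + |Y| + 2 < (p : ℤ) := by
    have : (((2 * a).natAbs + D.natAbs + M.natAbs + Y.natAbs + 2 : ℕ) : ℤ) < p := by
      exact_mod_cast hpbig
    push_cast at this
    simpa using this
  have habs := And.intro (abs_nonneg (2 * a)) (And.intro (abs_nonneg D)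
    (And.intro (abs_nonneg M) (abs_nonneg Y)))
  have hp2a : ¬ (p : ℤ) ∣ 2 * a := not_dvd_of_abs_lt (by positivity) (by linarith)
  have hpD : ¬ (p : ℤ) ∣ D := not_dvd_of_abs_lt hD (by linarith)
  have hpM : ¬ (p : ℤ) ∣ M := not_dvd_of_abs_lt hMpos.ne' (by linarith)
  have hpY : ¬ (p : ℤ) ∣ Y := not_dvd_of_abs_lt hY.ne' (by linarith)
  have hp2 : ¬ (p : ℤ) ∣ 2 := fun h => hp2a (Dvd.dvd.mul_right h _)
  have hpa : ¬ (p : ℤ) ∣ a := fun h => hp2a (Dvd.dvd.mul_left h _)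
  obtain ⟨w, hw⟩ : a * Y ∣ p * s - 1 := by
    have h1 : a * Y ∣ p - u := (Int.ModEq.dvd hpu.symm)
    have h2 : (p : ℤ) * s - 1 = (p - u) * s - v * (a * Y) := by linear_combination huv
    rw [h2]
    exact dvd_sub (Dvd.dvd.mul_right h1 _) (dvd_mul_left _ _)
  obtain ⟨z₀, hz₀⟩ := exists_sqrt_mod hD hDN hW hNs hcop hnorm hp
    ((hNY.trans ⟨a * w, by rw [hw]; ring⟩))
  -- the unit
  set R : ℤ := 2 * a * Y * p with hR
  have hRpos : 0 < R := by positivity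
  obtain ⟨U, V, hU, hV, hU1⟩ := exists_unt hMpos hMsq hRpos
  obtain ⟨r, hr1, hlvl⟩ := exists_lvl hp hp2 hU hV ⟨2 * a * Y, by rw [hR]; ring⟩
  -- the cusp
  set Xc : ℤ := s + b * Y with hXc
  obtain ⟨d, had, hpd, hdL⟩ := exists_cusp (b := b) (e := a * c) ha hp hp2a hpD hz₀ r
    (-(|Xc| + M + 1))
  set h : ℤ := Y * d - Xc with hh
  have hhM : h + M < 0 := by
    have h1 := neg_abs_le Xc
    have h2 : Y * d ≤ 1 * d := by
      apply mul_le_mul_of_nonpos_right (by linarith)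
      have := abs_nonneg Xc
      linarith
    rw [hh]
    linarith
  set E : ℤ := D * Y ^ 2 with hE
  set S₀ : ℤ := 2 * s + b * Y with hS₀def
  have hg₀ : Good M E R S₀ S₀ 1 := by
    refine ⟨?_, by simp, by simp, hS₀, one_pos⟩
    rw [hE, hS₀def, hDdef, ← hnorm]; ring
  have hW₀ : (p : ℤ) ^ r ∣ Wf M h S₀ 1 := by
    have : Wf M h S₀ 1 = Y ^ 2 * (d ^ 2 - b * d + a * c) := by
      unfold Wf
      rw [← hnorm, hh, hXc, hS₀def]; ring
    rw [this]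
    exact Dvd.dvd.mul_left hpd _
  have hpE : ¬ (p : ℤ) ∣ E := by
    intro h1
    rcases hpZ.dvd_or_dvd h1 with h2 | h2
    · exact hpD h2
    · exact hpY (hpZ.dvd_of_dvd_pow h2)
  have hph : ¬ (p : ℤ) ∣ M - h ^ 2 := by
    intro h1
    have h2 : (p : ℤ) ∣ Wf M h S₀ 1 := (dvd_pow_self _ (by omega)).trans hW₀
    have h3 : (p : ℤ) ∣ h * (2 * h + S₀) := by
      have : h * (2 * h + S₀) = Wf M h S₀ 1 - (M - h ^ 2) := by unfold Wf; ring
      rw [this]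
      exact dvd_sub h2 h1
    rcases hpZ.dvd_or_dvd h3 with h4 | h4
    · apply hpM
      have : M = (M - h ^ 2) + h * h := by ring
      rw [this]
      exact dvd_add h1 (Dvd.dvd.mul_right h4 _)
    · apply hpE
      have : E = (S₀ - 2 * h) * (2 * h + S₀) - 4 * (M - h ^ 2) := by
        rw [← hg₀.eq]; ring
      rw [this]
      exact dvd_sub (Dvd.dvd.mul_left h4 _) (Dvd.dvd.mul_left h1 _)
  -- the point `x₃`
  set x₃ : ℤ := a * w + b * p with hx₃def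
  have hx₃ : Y * x₃ = Xc * p - 1 := by
    rw [hx₃def, hXc]; linear_combination -hw
  have ha₃ : a ∣ x₃ - b * p := ⟨w, by rw [hx₃def]; ring⟩
  set κ : ℤ := d * p - x₃ with hκ
  have hYκ : Y * κ = h * p + 1 := by
    rw [hκ, hh]; linear_combination -hx₃
  have hκneg : κ < 0 := by
    have h1 : h * p + 1 < 0 := by nlinarith
    rw [← hYκ] at h1
    by_contra hcon
    push Not at hcon
    have := mul_nonneg hY.le hcon
    linarith
  have hcopκ : IsCoprime (p : ℤ) κ := ⟨-h, Y, by linear_combination hYκ⟩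
  obtain ⟨i, hir, ⟨y, hy⟩⟩ := exists_exp hκneg.ne hcopκ r
  set x : ℤ := d * y - (p : ℤ) ^ i with hx
  have hxy : x * p - x₃ * y = -1 := by
    rw [hx]
    rw [pow_succ] at hy
    linear_combination -hy + y * hκ
  -- the states
  obtain ⟨S₁, A₁, hg₁, hW₁⟩ := hensel hp hp2 hMpos hpE hph hr1 hU hV hlvl hg₀ hW₀ i
  have hqpos : (0 : ℤ) < (p : ℤ) ^ i := by positivity
  obtain ⟨U', V', hU', hV', hU1'⟩ := exists_unt hMpos hMsq (mul_pos hRpos hqpos)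
  obtain ⟨C₁, hC₁, hstates⟩ := states hMpos hU' hV' hU1' hg₁ hW₁
  -- positivity
  set σ : ℝ := Real.sqrt M with hσ
  have hMR1 : (1 : ℝ) ≤ M := by exact_mod_cast hMpos
  have hσ2 : σ ^ 2 = M := Real.sq_sqrt (by linarith)
  have hσ1 : 1 ≤ σ := by
    rw [hσ]; exact Real.one_le_sqrt.mpr hMR1
  have hσM : σ ≤ M := by nlinarith
  have hhR : (h : ℝ) + M < 0 := by exact_mod_cast hhM
  have hp2R : (2 : ℝ) ≤ p := by exact_mod_cast hp2le
  have hYR : (0 : ℝ) < Y := by exact_mod_cast hY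
  have hd1 : (h : ℝ) + σ * (1 : ℤ) < 0 := by push_cast; linarith
  have hσp : 1 < σ * p := by nlinarith
  have h31 : ((1 : ℤ) : ℝ) + σ * ((-p : ℤ) : ℝ) < 0 := by push_cast; linarith
  have ht1 : ((0 : ℤ) : ℝ) + σ * ((-Y : ℤ) : ℝ) < 0 := by
    push_cast
    have : 0 < σ * Y := by positivity
    linarith
  have hi1 : ((-Y : ℤ) : ℝ) + σ * ((0 : ℤ) : ℝ) < 0 := by push_cast; linarith
  set ξ : ℤ := Y * x - Xc * y with hξ
  have hxy1 : (ξ : ℝ) + σ * y < 0 := by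
    have e1 : (ξ : ℝ) + σ * y = (h + σ) * y - Y * (p : ℝ) ^ i := by
      rw [hξ, hx, hh]; push_cast; ring
    have e2 : (κ : ℝ) * y = (p : ℝ) ^ i * p - 1 := by
      have : ((κ * y : ℤ) : ℝ) = (((p : ℤ) ^ (i + 1) - 1 : ℤ) : ℝ) := by rw [hy]
      push_cast at this
      rw [this, pow_succ]
    have e3 : (Y : ℝ) * κ = h * p + 1 := by exact_mod_cast hYκ
    have hκR : (κ : ℝ) < 0 := by exact_mod_cast hκneg
    have hpi : (1 : ℝ) ≤ (p : ℝ) ^ i := one_le_pow₀ (by linarith)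
    have h5 : 0 < ((h + σ) * y - Y * (p : ℝ) ^ i) * κ := by
      have h6 : ((h + σ) * y - Y * (p : ℝ) ^ i) * κ = (p : ℝ) ^ i * (σ * p - 1) - (h + σ) := by
        linear_combination (h + σ) * e2 - (p : ℝ) ^ i * e3
      rw [h6]
      have h7 : 0 < (p : ℝ) ^ i * (σ * p - 1) := mul_pos (by linarith) (by linarith)
      have h8 : (h : ℝ) + σ < 0 := by linarith
      linarith
    rw [e1]
    by_contra hcon
    push Not at hcon
    have := mul_nonpos_of_nonneg_of_nonpos hcon hκR.le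
    linarith
  have hδ1 : 0 < 2 * Y ^ 2 * a := by positivity
  have hδ2 : 0 < 2 * Y ^ 2 * (p : ℤ) ^ i * a := by positivity
  obtain ⟨N₁, B₁, hN₁, hs₁⟩ := size_form (E := E) (e := b * Y ^ 2 * 1) hMpos hδ1
    (mul_pos_of_neg_of_neg hd1 hi1)
  obtain ⟨N₂, B₂, hN₂, hs₂⟩ := size_form (E := E) (e := b * Y ^ 2 * (p : ℤ) ^ i) hMpos hδ2
    (mul_pos_of_neg_of_neg hd1 hxy1)
  obtain ⟨N₃, B₃, hN₃, hs₃⟩ := size_form (E := E) (e := b * Y ^ 2 * 1) hMpos hδ1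
    (mul_pos_of_neg_of_neg hxy1 h31)
  obtain ⟨N₄, B₄, hN₄, hs₄⟩ := size_form (E := E) (e := b * Y ^ 2 * 1) hMpos hδ1
    (mul_pos_of_neg_of_neg ht1 h31)
  set T : ℤ := N₁ + N₂ + N₃ + N₄ with hT
  have hN₁Z : (0 : ℤ) < N₁ := by exact_mod_cast hN₁
  have hN₂Z : (0 : ℤ) < N₂ := by exact_mod_cast hN₂
  have hN₃Z : (0 : ℤ) < N₃ := by exact_mod_cast hN₃
  have hN₄Z : (0 : ℤ) < N₄ := by exact_mod_cast hN₄
  have hT1 : 0 < T := by omega
  refine ⟨T * (C₁ * T), B₁ + B₂ + B₃ + B₄ + A₁, by positivity, fun X hX => ?_⟩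
  have hA₁pos := hg₁.pA
  have hX0 : 0 < X := by omega
  have hXT : X ≤ T * X := by
    have : 1 * X ≤ T * X := mul_le_mul_of_nonneg_right hT1 hX0.le
    linarith
  obtain ⟨S, A, hg, hWA, hXA, hAX⟩ := hstates (T * X) (by omega)
  have hApos := hg.pA
  have hpiY : IsCoprime ((p : ℤ) ^ i) Y :=
    IsCoprime.pow_left ((Prime.coprime_iff_not_dvd hpZ).mpr hpY)
  have hpia : IsCoprime ((p : ℤ) ^ i) a :=
    IsCoprime.pow_left ((Prime.coprime_iff_not_dvd hpZ).mpr hpa)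
  have hR2 : 2 * a * Y ∣ R := ⟨p, by rw [hR]⟩
  obtain ⟨k₁, k₂, k₃, k₄, φ₁, φ₂, φ₃, e₁, e₂, e₃, e₄, f₁, f₂, f₃, f₄⟩ :=
    chain (a := a) (b := b) (c := c) (s := s) (Y := Y) (M := M) (p := p) (x₃ := x₃) (d := d)
      (y := y) (x := x) (A := A) (S := S) (i := i) hApos.ne' hx₃ ha₃ had hx hxy hg.eq
      (hR2.trans hg.cS) (hR2.trans hg.cA) hpiY hpia hWA
  obtain ⟨l₁, u₁⟩ := hs₁ S A k₁ hg.eq hg.pS hg.pA (by omega) f₁
  obtain ⟨l₂, u₂⟩ := hs₂ S A k₂ hg.eq hg.pS hg.pA (by omega) f₂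
  obtain ⟨l₃, u₃⟩ := hs₃ S A k₃ hg.eq hg.pS hg.pA (by omega) f₃
  obtain ⟨l₄, u₄⟩ := hs₄ S A k₄ hg.eq hg.pS hg.pA (by omega) f₄
  have bound : ∀ (n : ℕ) (k : ℤ), (0 : ℤ) < n → (n : ℤ) ≤ T → A ≤ n * k → k ≤ n * A →
      X ≤ k ∧ k ≤ T * (C₁ * T) * X := by
    intro n k hn hnT h1 h2
    constructor
    · have h3 : (n : ℤ) * X ≤ n * k := by
        have : (n : ℤ) * X ≤ T * X := mul_le_mul_of_nonneg_right hnT hX0.le
        linarith
      exact le_of_mul_le_mul_left h3 hn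
    · have h3 : (n : ℤ) * A ≤ T * A := mul_le_mul_of_nonneg_right hnT hApos.le
      have h4 : T * A ≤ T * (C₁ * (T * X)) := mul_le_mul_of_nonneg_left hAX hT1.le
      have h5 : T * (C₁ * (T * X)) = T * (C₁ * T) * X := by ring
      linarith
  refine ⟨k₁, k₂, k₃, k₄, bound N₁ k₁ hN₁Z (by omega) l₁ u₁, bound N₂ k₂ hN₂Z (by omega) l₂ u₂,
    bound N₃ k₃ hN₃Z (by omega) l₃ u₃, bound N₄ k₄ hN₄Z (by omega) l₄ u₄, ?_⟩
  -- the square
  have hsq : (a ^ 2 * (p : ℤ) ^ i) ^ 2 * ((P : ℤ) * ((a * k₁ ^ 2 + b * k₁ + c) *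
      (a * k₂ ^ 2 + b * k₂ + c) * (a * k₃ ^ 2 + b * k₃ + c) * (a * k₄ ^ 2 + b * k₄ + c)))
      = (P * W * A * φ₁ * φ₂ * φ₃) ^ 2 := by
    have h1 : (a ^ 2 * (p : ℤ) ^ i) ^ 2 * ((P : ℤ) * ((a * k₁ ^ 2 + b * k₁ + c) *
      (a * k₂ ^ 2 + b * k₂ + c) * (a * k₃ ^ 2 + b * k₃ + c) * (a * k₄ ^ 2 + b * k₄ + c)))
      = P * (a * (a * k₁ ^ 2 + b * k₁ + c))
        * ((p : ℤ) ^ i * (p : ℤ) ^ i * (a * (a * k₂ ^ 2 + b * k₂ + c)))
        * (a * (a * k₃ ^ 2 + b * k₃ + c)) * (a * (a * k₄ ^ 2 + b * k₄ + c)) := by ring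
    rw [h1, e₁, e₂, e₃, e₄, hM]; ring
  have hq0 : a ^ 2 * (p : ℤ) ^ i ≠ 0 := by positivity
  have hdvd : (a ^ 2 * (p : ℤ) ^ i) ^ 2 ∣ (P * W * A * φ₁ * φ₂ * φ₃) ^ 2 := ⟨_, hsq.symm⟩
  rw [Int.pow_dvd_pow_iff (by norm_num)] at hdvd
  obtain ⟨Q, hQ⟩ := hdvd
  refine ⟨Q, ?_⟩
  apply mul_left_cancel₀ (pow_ne_zero 2 hq0)
  rw [hsq, hQ]; ring

end Pool.Agent.H15Quad
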