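import Mathlib

/-!
# Quadratic polynomials and the Liouville function: `x² - D y² = P z²`

The pigeonhole argument is the one of helper96 (`Pool.Agent.Lib_helper96.Chowla.Minus`), restated for a
given prime `P`.
-/

set_option autoImplicit false

namespace Pool.Agent.H15Quad

open Finset

lemma sqrt_box {E : ℕ} (hE : 1 ≤ E) :
    E ≤ (Nat.sqrt (E - 1) + 1) ^ 2 ∧ ∀ x : ℕ, x < Nat.sqrt (E - 1) + 1 → x ^ 2 < E := by
  constructor
  · have := Nat.succ_le_succ_sqrt' (E - 1)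
    omega
  · intro x hx
    have h1 : x ≤ Nat.sqrt (E - 1) := by omega
    have h2 : x ^ 2 ≤ E - 1 := by
      calc x ^ 2 ≤ (Nat.sqrt (E - 1)) ^ 2 := by gcongr
        _ ≤ E - 1 := Nat.sqrt_le' _
    omega

lemma sq_sub_lt {E : ℕ} {x x' : ℕ} (h : ∀ y : ℕ, y < Nat.sqrt (E - 1) + 1 → y ^ 2 < E)
    (hx : x < Nat.sqrt (E - 1) + 1) (hx' : x' < Nat.sqrt (E - 1) + 1) :
    ((x : ℤ) - x') ^ 2 < E := by
  have h1 := h x hx
  have h2 := h x' hx'
  zify at h1 h2
  rcases le_total x x' with h3 | h3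
  · have h4 : (x : ℤ) ≤ x' := by exact_mod_cast h3
    nlinarith [sq_nonneg (x : ℤ), Int.natCast_nonneg x]
  · have h4 : (x' : ℤ) ≤ x := by exact_mod_cast h3
    nlinarith [sq_nonneg (x : ℤ), Int.natCast_nonneg x']

lemma eq_zero_of_sq_eq {D x y : ℤ} (hD : ¬ IsSquare D) (h : x ^ 2 = D * y ^ 2) : x = 0 ∧ y = 0 := by
  by_cases hy : y = 0
  · subst hy
    simp at h
    exact ⟨h, rfl⟩
  · exfalso
    have hdvd : y ^ 2 ∣ x ^ 2 := ⟨D, by linarith⟩
    rw [Int.pow_dvd_pow_iff (by norm_num)] at hdvd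
    obtain ⟨k, rfl⟩ := hdvd
    apply hD
    refine ⟨k, ?_⟩
    have hy2 : y ^ 2 ≠ 0 := pow_ne_zero 2 hy
    have : y ^ 2 * D = y ^ 2 * (k * k) := by linear_combination -h
    exact mul_left_cancel₀ hy2 this

lemma legendre_nonsquare {D : ℤ} (hD : ¬ IsSquare D) {p : ℕ} (hp : p.Prime)
    (hpE : 4 * D.natAbs < p) (hpmod : p ≡ 1 [MOD 4 * D.natAbs]) :
    ∃ X Y Z : ℤ, Z ≠ 0 ∧ X ^ 2 - D * Y ^ 2 = p * Z ^ 2 := by
  have hD0 : D ≠ 0 := by rintro rfl; exact hD (IsSquare.zero)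
  set E : ℕ := D.natAbs with hEdef
  have hE1 : 1 ≤ E := Int.natAbs_pos.mpr hD0
  have : Fact p.Prime := ⟨hp⟩
  have hp1 : 1 ≤ p := hp.one_lt.le
  have hodd : Odd p := by
    rcases hp.eq_two_or_odd' with h | h
    · omega
    · exact h
  -- D is a square mod p
  have hpmod' : p % (4 * E) = 1 := by
    have h := hpmod
    unfold Nat.ModEq at h
    rw [Nat.mod_eq_of_lt (show 1 < 4 * E by omega)] at h
    exact h
  have hleg : legendreSym p D = 1 := by
    rw [jacobiSym.legendreSym.to_jacobiSym, jacobiSym.mod_right D hodd, ← hEdef, hpmod']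
    exact jacobiSym.one_right D
  have hDp : (D : ZMod p) ≠ 0 := by
    intro h
    rw [ZMod.intCast_zmod_eq_zero_iff_dvd] at h
    have := Int.natAbs_dvd_natAbs.mpr h
    simp only [Int.natAbs_natCast] at this
    have := Nat.le_of_dvd (by omega) this
    omega
  obtain ⟨r, hr⟩ := (legendreSym.eq_one_iff p hDp).mp hleg
  -- boxes
  obtain ⟨hx1, hx2⟩ := sqrt_box (E := E * p) (Nat.mul_pos hE1 hp1)
  obtain ⟨hy1, hy2⟩ := sqrt_box (E := p) hp1
  obtain ⟨hz1, hz2⟩ := sqrt_box (E := E) hE1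
  set a := Nat.sqrt (E * p - 1) + 1 with ha
  set b := Nat.sqrt (p - 1) + 1 with hb
  set c := Nat.sqrt (E - 1) + 1 with hc
  have hb' : p < b ^ 2 := by
    rcases hy1.lt_or_eq with h | h
    · exact h
    · exfalso
      have : ¬ IsSquare p := hp.not_isSquare
      exact this ⟨b, by rw [h]; ring⟩
  have : NeZero E := ⟨by omega⟩
  have : NeZero p := ⟨by omega⟩
  -- pigeonhole
  let S : Finset (ℕ × ℕ × ℕ) := range a ×ˢ range b ×ˢ range c
  let T : Finset (ZMod E × ZMod p) := Finset.univ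
  have hcard : #T < #S := by
    have h1 : #T = E * p := by
      simp [T, ZMod.card]
    have h2 : #S = a * (b * c) := by simp [S]
    rw [h1, h2]
    by_contra hcon
    push Not at hcon
    have h3 : (a * (b * c)) ^ 2 ≤ (E * p) ^ 2 := by gcongr
    have h4 : (E * p) * (p * E) < a ^ 2 * (b ^ 2 * c ^ 2) := by
      have h5 : p * E < b ^ 2 * c ^ 2 := by
        calc p * E < b ^ 2 * E := by
              exact Nat.mul_lt_mul_of_pos_right hb' hE1
          _ ≤ b ^ 2 * c ^ 2 := by gcongr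
      calc (E * p) * (p * E) < (E * p) * (b ^ 2 * c ^ 2) := by
            apply Nat.mul_lt_mul_of_pos_left h5 (Nat.mul_pos hE1 hp1)
        _ ≤ a ^ 2 * (b ^ 2 * c ^ 2) := by gcongr
    nlinarith
  let φ : ℕ × ℕ × ℕ → ZMod E × ZMod p :=
    fun t => (((t.1 : ZMod E) - (t.2.2 : ZMod E)), ((t.1 : ZMod p) - r * (t.2.1 : ZMod p)))
  obtain ⟨t, ht, t', ht', hne, heq⟩ :=
    exists_ne_map_eq_of_card_lt_of_maps_to hcard (f := φ) (fun x _ => mem_coe.mpr (mem_univ _))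
  simp only [S, mem_product, mem_range] at ht ht'
  simp only [φ, Prod.mk.injEq] at heq
  set x : ℤ := (t.1 : ℤ) - t'.1 with hxdef
  set y : ℤ := (t.2.1 : ℤ) - t'.2.1 with hydef
  set z : ℤ := (t.2.2 : ℤ) - t'.2.2 with hzdef
  have hxx : x ^ 2 < (E * p : ℕ) := sq_sub_lt hx2 ht.1 ht'.1
  have hyy : y ^ 2 < p := sq_sub_lt hy2 ht.2.1 ht'.2.1
  have hzz : z ^ 2 < E := sq_sub_lt hz2 ht.2.2 ht'.2.2
  push_cast at hxx
  have hxyz : ¬ (x = 0 ∧ y = 0 ∧ z = 0) := by
    rintro ⟨h1, h2, h3⟩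
    apply hne
    ext
    · omega
    · omega
    · omega
  -- divisibility
  have hEz : (E : ℤ) ∣ x - z := by
    rw [← ZMod.intCast_zmod_eq_zero_iff_dvd]
    push_cast [hxdef, hzdef]
    linear_combination heq.1
  have hpy : ((x : ℤ) : ZMod p) = r * (y : ZMod p) := by
    push_cast [hxdef, hydef]
    linear_combination heq.2
  have hED : (E : ℤ) ∣ D := Int.natAbs_dvd.mpr dvd_rfl
  have hEp1 : (E : ℤ) ∣ (p : ℤ) - 1 := by
    have h1 : ((4 * E : ℕ) : ℤ) ∣ (p : ℤ) - 1 := by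
      have := (Nat.modEq_iff_dvd.mp hpmod.symm)
      simpa using this
    exact dvd_trans ⟨4, by push_cast; ring⟩ h1
  set Q : ℤ := x ^ 2 - D * y ^ 2 - p * z ^ 2 with hQ
  have hEQ : (E : ℤ) ∣ Q := by
    have : Q = (x - z) * (x + z) - D * y ^ 2 - (p - 1) * z ^ 2 := by rw [hQ]; ring
    rw [this]
    exact dvd_sub (dvd_sub (Dvd.dvd.mul_right hEz _) (Dvd.dvd.mul_right hED _))
      (Dvd.dvd.mul_right hEp1 _)
  have hpQ : (p : ℤ) ∣ Q := by
    rw [← ZMod.intCast_zmod_eq_zero_iff_dvd]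
    rw [hQ]
    push_cast
    rw [hpy, hr]
    simp
    ring
  have hcop : IsCoprime (E : ℤ) (p : ℤ) := by
    obtain ⟨k, hk⟩ := hEp1
    exact ⟨-k, 1, by linarith⟩
  obtain ⟨k, hk⟩ := hcop.mul_dvd hEQ hpQ
  -- `Q = E p k`, bounds
  have hEpos : (0 : ℤ) < E := by exact_mod_cast hE1
  have hppos : (0 : ℤ) < p := by exact_mod_cast hp1
  have hEp : (0 : ℤ) < E * p := mul_pos hEpos hppos
  have hpz : (p : ℤ) * z ^ 2 < p * E := by
    exact mul_lt_mul_of_pos_left hzz hppos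
  have hEy : (E : ℤ) * y ^ 2 < E * p := mul_lt_mul_of_pos_left hyy hEpos
  have hx0 : 0 ≤ x ^ 2 := sq_nonneg x
  have hy0 : 0 ≤ (E : ℤ) * y ^ 2 := by positivity
  have hz0 : 0 ≤ (p : ℤ) * z ^ 2 := by positivity
  have hcase : Q = 0 ∨ Q = -D * p := by
    rcases lt_or_gt_of_ne hD0 with hneg | hpos
    · have hDE : D = -(E : ℤ) := by rw [hEdef, Int.natCast_natAbs, abs_of_neg hneg]; ring
      have h1 : -(E * p : ℤ) < Q := by rw [hQ, hDE]; linarith
      have h2 : Q < 2 * (E * p : ℤ) := by rw [hQ, hDE]; linarith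
      rw [hk] at h1 h2
      have hk1 : -1 < k := by
        refine lt_of_mul_lt_mul_left ?_ hEp.le
        linarith
      have hk2 : k < 2 := by
        refine lt_of_mul_lt_mul_left ?_ hEp.le
        linarith
      have : k = 0 ∨ k = 1 := by omega
      rcases this with rfl | rfl
      · left; rw [hk]; ring
      · right; rw [hk, hDE]; ring
    · have hDE : D = (E : ℤ) := by rw [hEdef, Int.natCast_natAbs, abs_of_pos hpos]
      have h1 : -2 * (E * p : ℤ) < Q := by rw [hQ, hDE]; linarith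
      have h2 : Q < (E * p : ℤ) := by rw [hQ, hDE]; linarith
      rw [hk] at h1 h2
      have hk1 : -2 < k := by
        refine lt_of_mul_lt_mul_left ?_ hEp.le
        linarith
      have hk2 : k < 1 := by
        refine lt_of_mul_lt_mul_left ?_ hEp.le
        linarith
      have : k = 0 ∨ k = -1 := by omega
      rcases this with rfl | rfl
      · left; rw [hk]; ring
      · right; rw [hk, hDE]; ring
  rcases hcase with h0 | h0
  · -- `x² - D y² = p z²`
    have hz : z ≠ 0 := by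
      intro hz
      have h1 : x ^ 2 = D * y ^ 2 := by
        rw [hQ, hz] at h0
        linarith
      obtain ⟨h2, h3⟩ := eq_zero_of_sq_eq hD h1
      exact hxyz ⟨h2, h3, hz⟩
    have h1 : x ^ 2 - D * y ^ 2 = p * z ^ 2 := by rw [hQ] at h0; linarith
    exact ⟨x, y, z, hz, h1⟩
  · have hz : z ^ 2 - D ≠ 0 := by
      intro hz
      exact hD ⟨z, by linarith⟩
    have h1 : x ^ 2 - D * y ^ 2 = p * (z ^ 2 - D) := by rw [hQ] at h0; linarith
    have h2 : (x * z + D * y) ^ 2 - D * (x + y * z) ^ 2 = p * (z ^ 2 - D) ^ 2 := by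
      linear_combination (z ^ 2 - D) * h1
    exact ⟨x * z + D * y, x + y * z, z ^ 2 - D, hz, h2⟩

lemma legendre_square {d : ℤ} (hd : d ≠ 0) {p : ℕ}
    (hpmod : p ≡ 1 [MOD 4 * (d ^ 2).natAbs]) :
    ∃ X Y Z : ℤ, Z ≠ 0 ∧ X ^ 2 - d ^ 2 * Y ^ 2 = p * Z ^ 2 := by
  have h1 : (2 * d) ∣ (p : ℤ) - 1 := by
    have h2 : ((4 * (d ^ 2).natAbs : ℕ) : ℤ) ∣ (p : ℤ) - 1 := by
      have := (Nat.modEq_iff_dvd.mp hpmod.symm)
      simpa using this
    refine dvd_trans ?_ h2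
    rw [Nat.cast_mul, Int.natCast_natAbs, abs_of_nonneg (sq_nonneg d)]
    exact ⟨2 * d, by push_cast; ring⟩
  obtain ⟨k, hk⟩ := h1
  -- X = d*k + 1, Y = k : X - dY = 1, X + dY = 2dk+1 = p
  refine ⟨d * k + 1, k, 1, one_ne_zero, ?_⟩
  linear_combination -hk

/-- For every nonzero `D` and every large prime `P ≡ 1 mod 4|D|` the equation `x² - D y² = P z²` has a
solution in positive integers (`x ≥ 0`). -/
lemma legendre {D : ℤ} (hD : D ≠ 0) {p : ℕ} (hp : p.Prime)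
    (hpE : 4 * D.natAbs < p) (hpmod : p ≡ 1 [MOD 4 * D.natAbs]) :
    ∃ X Y Z : ℤ, 0 ≤ X ∧ 0 < Y ∧ 0 < Z ∧ X ^ 2 - D * Y ^ 2 = p * Z ^ 2 := by
  have key : ∃ X Y Z : ℤ, Z ≠ 0 ∧ X ^ 2 - D * Y ^ 2 = p * Z ^ 2 := by
    by_cases hs : IsSquare D
    · obtain ⟨d, hd⟩ := hs
      have hd' : D = d ^ 2 := by rw [hd]; ring
      subst hd'
      exact legendre_square (by rintro rfl; apply hD; norm_num) hpmod
    · exact legendre_nonsquare hs hp hpE hpmod
  obtain ⟨X, Y, Z, hZ, h⟩ := key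
  have hY : Y ≠ 0 := by
    rintro rfl
    have h1 : X ^ 2 = (p : ℤ) * Z ^ 2 := by linarith
    have hps : ¬ IsSquare (p : ℤ) := by
      intro h2
      exact hp.not_isSquare (by
        obtain ⟨k, hk⟩ := h2
        refine ⟨k.natAbs, ?_⟩
        have := congrArg Int.natAbs hk
        rw [Int.natAbs_mul, Int.natAbs_natCast] at this
        exact this)
    exact hZ (eq_zero_of_sq_eq hps h1).2
  refine ⟨|X|, |Y|, |Z|, abs_nonneg _, abs_pos.mpr hY, abs_pos.mpr hZ, ?_⟩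
  rw [sq_abs, sq_abs, sq_abs]; exact h

end Pool.Agent.H15Quad
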