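import Mathlib

/-!
# Windows on which a product of translates of a sign sequence is constant
-/

set_option autoImplicit false

namespace Pool.Agent.H15Quad

open Finset

/-- extension by `1` of a state vector -/
def ext1 {m : ℕ} (v : Fin m → ℤˣ) (s : ℕ) : ℤˣ := if h : s < m then v ⟨s, h⟩ else 1

/-- the transition map of the recurrence `∏_{s ∈ S} u (n+s) = ε`, where `m = max S`. -/
def trans (S : Finset ℕ) (m : ℕ) (ε : ℤˣ) (v : Fin m → ℤˣ) (j : Fin m) : ℤˣ :=
  if (j : ℕ) + 1 < m then ext1 v ((j : ℕ) + 1) else ε * ∏ s ∈ S.erase m, ext1 v s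

lemma trans_injective {S : Finset ℕ} {m : ℕ} (hm : 0 < m) (h0 : 0 ∈ S)
    (ε : ℤˣ) : Function.Injective (trans S m ε) := by
  intro v w hvw
  have h1 : ∀ s : ℕ, 0 < s → ext1 v s = ext1 w s := by
    intro s hs
    by_cases hsm : s < m
    · have := congrFun hvw ⟨s - 1, by omega⟩
      simp only [trans] at this
      rw [if_pos (by omega), if_pos (by omega)] at this
      rwa [show s - 1 + 1 = s by omega] at this
    · simp [ext1, hsm]
  have h2 : ext1 v 0 = ext1 w 0 := by
    have := congrFun hvw ⟨m - 1, by omega⟩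
    simp only [trans] at this
    rw [if_neg (by omega), if_neg (by omega)] at this
    have h3 := mul_left_cancel this
    have h0' : 0 ∈ S.erase m := mem_erase.mpr ⟨hm.ne, h0⟩
    rw [← mul_prod_erase _ _ h0', ← mul_prod_erase _ _ h0'] at h3
    have h4 : ∏ s ∈ (S.erase m).erase 0, ext1 v s = ∏ s ∈ (S.erase m).erase 0, ext1 w s := by
      apply prod_congr rfl
      intro s hs
      apply h1
      exact Nat.pos_of_ne_zero (ne_of_mem_erase hs)
    rw [h4] at h3
    exact mul_right_cancel h3
  funext j
  have h3 : ∀ s, ext1 v s = ext1 w s := by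
    intro s
    rcases Nat.eq_zero_or_pos s with rfl | h
    · exact h2
    · exact h1 s h
  have := h3 j
  simpa [ext1] using this

/-- If the product of translates is constant on a window, the sequence is periodic there, with a
period depending only on `S`. -/
lemma periodic_window (S : Finset ℕ) (h0 : 0 ∈ S) :
    ∃ T : ℕ, 0 < T ∧ ∀ (u : ℕ → ℤˣ) (ε : ℤˣ) (A B : ℕ),
      (∀ n, A ≤ n → n ≤ B → ∏ s ∈ S, u (n + s) = ε) →
      ∀ n, A ≤ n → n + T ≤ B → u (n + T) = u n := by
  obtain ⟨m, hmS, hm⟩ : ∃ m ∈ S, ∀ s ∈ S, s ≤ m :=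
    ⟨S.max' ⟨0, h0⟩, S.max'_mem _, fun s hs => S.le_max' s hs⟩
  rcases Nat.eq_zero_or_pos m with rfl | hmpos
  · refine ⟨1, one_pos, fun u ε A B hu n hA hB => ?_⟩
    have hS : S = {0} := by
      ext s
      simp only [mem_singleton]
      constructor
      · intro hs; exact Nat.le_zero.mp (hm s hs)
      · rintro rfl; exact h0
    have h1 := hu n hA (by omega)
    have h2 := hu (n + 1) (by omega) hB
    rw [hS] at h1 h2
    simp only [prod_singleton, add_zero] at h1 h2
    rw [h1, h2]
  · refine ⟨Fintype.card (Equiv.Perm (Fin m → ℤˣ)), Fintype.card_pos, ?_⟩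
    intro u ε A B hu n hA hB
    have hinj := trans_injective hmpos h0 ε
    let Φ : Equiv.Perm (Fin m → ℤˣ) := Equiv.ofBijective _ (Finite.injective_iff_bijective.mp hinj)
    let st : ℕ → (Fin m → ℤˣ) := fun k j => u (k + j)
    have hext : ∀ k s, s < m → ext1 (st k) s = u (k + s) := by
      intro k s hs
      simp [ext1, hs, st]
    have hstep : ∀ k, A ≤ k → k ≤ B → st (k + 1) = Φ (st k) := by
      intro k hk1 hk2
      funext j
      change u (k + 1 + j) = trans S m ε (st k) j
      unfold trans
      by_cases hj : (j : ℕ) + 1 < m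
      · rw [if_pos hj, hext k _ hj]
        congr 1
        ring
      · rw [if_neg hj]
        have hjm : k + 1 + (j : ℕ) = k + m := by
          have := j.2
          omega
        rw [hjm]
        have h1 := hu k hk1 hk2
        rw [← mul_prod_erase _ _ hmS] at h1
        have h2 : ∏ s ∈ S.erase m, ext1 (st k) s = ∏ s ∈ S.erase m, u (k + s) := by
          apply prod_congr rfl
          intro s hs
          apply hext
          exact lt_of_le_of_ne (hm s (mem_of_mem_erase hs)) (ne_of_mem_erase hs)
        rw [h2, ← h1, mul_assoc, Int.units_mul_self, mul_one]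
    have hiter : ∀ l, n + l ≤ B + 1 → st (n + l) = (Φ ^ l) (st n) := by
      intro l
      induction l with
      | zero => intro _; simp
      | succ l ih =>
        intro hl
        rw [← add_assoc, hstep (n + l) (by omega) (by omega), ih (by omega), pow_succ']
        rfl
    have h1 := hiter _ (show n + Fintype.card (Equiv.Perm (Fin m → ℤˣ)) ≤ B + 1 by omega)
    rw [pow_card_eq_one] at h1
    have h2 := congrFun h1 ⟨0, hmpos⟩
    simpa [st] using h2

end Pool.Agent.H15Quad
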