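import Pool.Agent.Lib_helper15.Quad.Signs
import Pool.Agent.Lib_helper15.Quad.Shift

/-!
# Quadratic polynomials and completely multiplicative functions: products of translates
-/

set_option autoImplicit false

namespace Pool.Agent.H15Quad

open Finset

lemma Mult.one {h : ℤ → ℤ} (hh : Mult h) : h 1 = 1 := by
  have := hh.sq (m := 1) one_ne_zero
  simpa using this

lemma Mult.prod {h : ℤ → ℤ} (hh : Mult h) {ι : Type*} (S : Finset ι) (g : ι → ℤ)
    (hg : ∀ s ∈ S, g s ≠ 0) : h (∏ s ∈ S, g s) = ∏ s ∈ S, h (g s) := by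
  classical
  induction S using Finset.induction_on with
  | empty => simpa using hh.one
  | insert s S hs ih =>
    rw [prod_insert hs, prod_insert hs, hh.mul _ _ (hg s (mem_insert_self s S))
      (prod_ne_zero_iff.mpr fun i hi => hg i (mem_insert_of_mem hi)),
      ih fun i hi => hg i (mem_insert_of_mem hi)]

/-- Both signs occur in every interval `[x, C x]` for the product of translates; shifts in `ℕ`,
containing `0`. -/
lemma shift_nat {h : ℤ → ℤ} (hh : Mult h) {a b c : ℤ} (ha : a ≠ 0)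
    (hD : b ^ 2 - 4 * (a * c) ≠ 0) (S : Finset ℕ) (h0 : 0 ∈ S) :
    ∃ C : ℕ, ∀ x : ℕ, 1 ≤ x →
      (∃ n : ℕ, x ≤ n ∧ n ≤ C * x ∧ h (∏ s ∈ S, qv a b c ((n + s : ℕ) : ℤ)) = 1) ∧
      (∃ n : ℕ, x ≤ n ∧ n ≤ C * x ∧ h (∏ s ∈ S, qv a b c ((n + s : ℕ) : ℤ)) = -1) := by
  obtain ⟨T, hT, hper⟩ := periodic_window S h0
  have hTZ : (T : ℤ) ≠ 0 := by exact_mod_cast hT.ne'
  obtain ⟨C, hC⟩ := both_nat hh (a := a * T ^ 2) (b := b * T) (c := c) (by positivity) (by
    intro h1
    apply hD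
    have : (T : ℤ) ^ 2 * (b ^ 2 - 4 * (a * c)) = 0 := by linear_combination h1
    rcases mul_eq_zero.mp this with h2 | h2
    · exact absurd h2 (by positivity)
    · exact h2)
  have hqT : ∀ j : ℕ, qv (a * T ^ 2) (b * T) c j = qv a b c ((T * j : ℕ) : ℤ) := by
    intro j; unfold qv; push_cast; ring
  set n₁ : ℕ := (|b| + |c| + 1).toNat with hn₁
  have hn₁Z : ((n₁ : ℕ) : ℤ) = |b| + |c| + 1 := Int.toNat_of_nonneg (by positivity)
  have hn₁pos : 1 ≤ n₁ := by
    have := abs_nonneg b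
    have := abs_nonneg c
    omega
  have hne : ∀ n : ℕ, n₁ ≤ n → qv a b c n ≠ 0 := by
    intro n hn
    apply qv_ne_zero ha
    rw [← hn₁Z]; exact_mod_cast hn
  let u : ℕ → ℤˣ := fun n => if h (qv a b c n) = 1 then 1 else -1
  have hu : ∀ n : ℕ, n₁ ≤ n → ((u n : ℤˣ) : ℤ) = h (qv a b c n) := by
    intro n hn
    simp only [u]
    rcases hh.val _ (hne n hn) with h1 | h1
    · rw [if_pos h1, h1]; rfl
    · rw [if_neg (by rw [h1]; norm_num), h1]; rfl
  have hprod : ∀ n : ℕ, n₁ ≤ n →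
      h (∏ s ∈ S, qv a b c ((n + s : ℕ) : ℤ)) = ((∏ s ∈ S, u (n + s) : ℤˣ) : ℤ) := by
    intro n hn
    rw [hh.prod S _ (fun s _ => hne (n + s) (by omega)), Units.coe_prod]
    exact prod_congr rfl fun s _ => (hu (n + s) (by omega)).symm
  -- the main claim for one sign
  have main : ∀ (ε : ℤˣ) (X : ℕ), n₁ ≤ X →
      ∃ n : ℕ, X ≤ n ∧ n ≤ T * C * X ∧ ∏ s ∈ S, u (n + s) = ε := by
    intro ε X hX
    by_contra hcon
    push Not at hcon
    have hX1 : 1 ≤ X := hn₁pos.trans hX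
    have hwin : ∀ n, X ≤ n → n ≤ T * C * X → ∏ s ∈ S, u (n + s) = -ε := by
      intro n h1 h2
      have h3 := hcon n h1 h2
      rcases Int.units_eq_one_or (∏ s ∈ S, u (n + s)) with h4 | h4 <;>
      rcases Int.units_eq_one_or ε with h5 | h5 <;> rw [h4, h5] at h3 ⊢ <;> simp_all
    have hconst : ∀ j : ℕ, X ≤ j → j ≤ C * X → u (T * j) = u (T * X) := by
      intro j hj
      induction j, hj using Nat.le_induction with
      | base => intro _; rfl
      | succ j hj ih =>
        intro hjC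
        have h1 := hper u (-ε) X (T * C * X) hwin (T * j)
          (by calc X ≤ j := hj
                _ = 1 * j := (one_mul j).symm
                _ ≤ T * j := Nat.mul_le_mul_right j hT)
          (by calc T * j + T = T * (j + 1) := by ring
                _ ≤ T * (C * X) := Nat.mul_le_mul_left T hjC
                _ = T * C * X := by ring)
        rw [← ih (by omega), ← h1]
        congr 1
    obtain ⟨⟨j₁, l₁, r₁, e₁⟩, ⟨j₂, l₂, r₂, e₂⟩⟩ := hC X hX1
    rw [hqT] at e₁ e₂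
    have hTj : ∀ j : ℕ, X ≤ j → n₁ ≤ T * j := by
      intro j hj
      calc n₁ ≤ X := hX
        _ ≤ j := hj
        _ = 1 * j := (one_mul j).symm
        _ ≤ T * j := Nat.mul_le_mul_right j hT
    have v₁ := hu (T * j₁) (hTj j₁ l₁)
    have v₂ := hu (T * j₂) (hTj j₂ l₂)
    rw [hconst j₁ l₁ r₁, e₁] at v₁
    rw [hconst j₂ l₂ r₂, e₂, v₁] at v₂
    norm_num at v₂
  refine ⟨T * C * n₁, fun x hx => ?_⟩
  have hx' : n₁ ≤ n₁ * x := Nat.le_mul_of_pos_right n₁ hx
  have hxx : x ≤ n₁ * x := Nat.le_mul_of_pos_left x hn₁pos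
  constructor
  · obtain ⟨n, h1, h2, h3⟩ := main 1 (n₁ * x) hx'
    refine ⟨n, by omega, by rw [mul_assoc]; exact h2, ?_⟩
    rw [hprod n (by omega), h3]; rfl
  · obtain ⟨n, h1, h2, h3⟩ := main (-1) (n₁ * x) hx'
    refine ⟨n, by omega, by rw [mul_assoc]; exact h2, ?_⟩
    rw [hprod n (by omega), h3]; rfl

/-- Both signs occur in every interval `[x, C x]` for the product of translates. -/
theorem shift_int {h : ℤ → ℤ} (hh : Mult h) {a b c : ℤ} (ha : a ≠ 0)
    (hD : b ^ 2 - 4 * (a * c) ≠ 0) (S : Finset ℤ) (hS : S.Nonempty) :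
    ∃ C : ℕ, ∀ x : ℕ, 1 ≤ x →
      (∃ n : ℕ, x ≤ n ∧ n ≤ C * x ∧ h (∏ s ∈ S, qv a b c (n + s)) = 1) ∧
      (∃ n : ℕ, x ≤ n ∧ n ≤ C * x ∧ h (∏ s ∈ S, qv a b c (n + s)) = -1) := by
  obtain ⟨m, hmS, hm⟩ : ∃ m ∈ S, ∀ s ∈ S, m ≤ s :=
    ⟨S.min' hS, S.min'_mem _, fun s hs => S.min'_le s hs⟩
  have h0 : 0 ∈ S.image (fun s => (s - m).toNat) := by
    rw [mem_image]
    exact ⟨m, hmS, by simp⟩
  obtain ⟨C, hC⟩ := shift_nat hh (a := a) (b := 2 * a * m + b) (c := a * m ^ 2 + b * m + c) ha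
    (by intro h1; apply hD; linear_combination h1) _ h0
  have hprod : ∀ n : ℕ, ∏ s' ∈ S.image (fun s => (s - m).toNat),
      qv a (2 * a * m + b) (a * m ^ 2 + b * m + c) ((n + s' : ℕ) : ℤ)
        = ∏ s ∈ S, qv a b c (n + s) := by
    intro n
    rw [prod_image]
    · apply prod_congr rfl
      intro s hs
      have := hm s hs
      rw [Nat.cast_add, Int.toNat_of_nonneg (by linarith)]
      unfold qv; ring
    · intro s hs s' hs' hss
      have h1 := hm s hs
      have h2 := hm s' hs'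
      simp only at hss
      omega
  simp only [hprod] at hC
  exact ⟨C, hC⟩

/-- A quadratic polynomial of discriminant zero is an integer times a square. -/
lemma exists_square {a b c : ℤ} (ha : a ≠ 0) (hD : b ^ 2 - 4 * (a * c) = 0) :
    ∃ k v u : ℤ, a = k * v ^ 2 ∧ b = 2 * k * v * u ∧ c = k * u ^ 2 := by
  have hg : 0 < Int.gcd (2 * a) b := Int.gcd_pos_of_ne_zero_left _ (by omega)
  obtain ⟨g, v, u, hg1, huv, h1, h2⟩ := Int.exists_gcd_one' hg
  have hgZ : (g : ℤ) ≠ 0 := by exact_mod_cast hg1.ne'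
  have hv0 : v ≠ 0 := by rintro rfl; apply ha; linarith
  have hcop : IsCoprime v u := Int.isCoprime_iff_gcd_eq_one.mpr huv
  -- g u² = 2 v c
  have h3 : (g : ℤ) * u ^ 2 = 2 * v * c := by
    apply mul_left_cancel₀ hgZ
    rw [h2] at hD
    linear_combination hD + 2 * c * h1
  have hvg : v ∣ g := by
    apply (hcop.pow_right (n := 2)).dvd_of_dvd_mul_right
    rw [h3]
    exact ⟨2 * c, by ring⟩
  obtain ⟨k, hk⟩ := hvg
  have h4 : k * u ^ 2 = 2 * c := by
    apply mul_left_cancel₀ hv0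
    rw [hk] at h3
    linear_combination h3
  have h5 : 2 * a = k * v ^ 2 := by rw [h1, hk]; ring
  have hkeven : Even k := by
    by_contra hodd
    rw [Int.not_even_iff_odd] at hodd
    have e1 : Even (k * u ^ 2) := by rw [h4]; exact even_two_mul c
    have e2 : Even (k * v ^ 2) := by rw [← h5]; exact even_two_mul a
    rw [Int.even_mul] at e1 e2
    have e3 : Even u := by
      rcases e1 with h | h
      · exact absurd h (Int.not_even_iff_odd.mpr hodd)
      · exact (Int.even_pow.mp h).1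
    have e4 : Even v := by
      rcases e2 with h | h
      · exact absurd h (Int.not_even_iff_odd.mpr hodd)
      · exact (Int.even_pow.mp h).1
    obtain ⟨x, y, hxy⟩ := hcop
    have : Even (1 : ℤ) := by
      rw [← hxy]
      exact (e4.mul_left x).add (e3.mul_left y)
    exact absurd this (by decide)
  obtain ⟨k', hk'⟩ := hkeven
  refine ⟨k', v, u, ?_, ?_, ?_⟩
  · have : 2 * a = 2 * (k' * v ^ 2) := by rw [h5, hk']; ring
    linarith
  · rw [h2, hk, hk']; ring
  · have : 2 * c = 2 * (k' * u ^ 2) := by rw [← h4, hk']; ring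
    linarith

end Pool.Agent.H15Quad
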