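import Pool.Agent.Lib_helper15.Quad.Legendre

/-!
# Quadratic polynomials and the Liouville function: an element of norm `P W²` which is rational mod `N`
-/

set_option autoImplicit false

namespace Pool.Agent.H15Quad

/-- Square roots of `P ≡ 1 mod N³` modulo powers of `N`, when `4 ∣ N`. -/
lemma sqrt_lift {N P : ℤ} (h4 : 4 ∣ N) (hP : N ^ 3 ∣ P - 1) (j : ℕ) :
    ∃ r : ℤ, N ^ (j + 2) ∣ r ^ 2 - P ∧ N ∣ r - 1 := by
  induction j with
  | zero =>
    refine ⟨1, ?_, by simp⟩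
    have h1 : (1 : ℤ) ^ 2 - P = -(P - 1) := by ring
    rw [h1, dvd_neg]
    exact (pow_dvd_pow N (by norm_num)).trans hP
  | succ j ih =>
    obtain ⟨r, ⟨ν, hν⟩, hr⟩ := ih
    obtain ⟨n, hn⟩ := h4
    -- `N^(j+2) = 2 H`, `H = N^(j+1) * (2 n)`
    refine ⟨r - N ^ (j + 1) * (2 * n) * ν, ?_, ?_⟩
    · have h1 : (r - N ^ (j + 1) * (2 * n) * ν) ^ 2 - P
          = N ^ (j + 2) * ν * (1 - r) + (r ^ 2 - P - N ^ (j + 2) * ν)
            + N ^ (j + 1) * N ^ (j + 1) * (4 * n) * n * ν ^ 2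
            + (N ^ (j + 2) - N ^ (j + 1) * (4 * n)) * (r * ν) := by ring
      have h2 : N ^ (j + 2) - N ^ (j + 1) * (4 * n) = 0 := by
        rw [← hn]; ring
      rw [h1, h2, hν, ← hn]
      simp only [sub_self, add_zero, zero_mul]
      refine dvd_add ?_ ?_
      · have h3 : N ∣ 1 - r := by
          have : 1 - r = -(r - 1) := by ring
          rw [this, dvd_neg]; exact hr
        have h4 : N ^ (j + 1 + 2) = N ^ (j + 2) * N := by ring
        rw [h4, mul_assoc]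
        exact mul_dvd_mul_left _ (Dvd.dvd.mul_left h3 _)
      · have h4 : N ^ (j + 1) * N ^ (j + 1) * N * n * ν ^ 2
            = N ^ (j + 1 + 2) * (N ^ j * n * ν ^ 2) := by ring
        rw [h4]
        exact dvd_mul_right _ _
    · have h3 : r - N ^ (j + 1) * (2 * n) * ν - 1 = (r - 1) - N * (N ^ j * (2 * n) * ν) := by ring
      rw [h3]
      exact dvd_sub hr (dvd_mul_right _ _)

lemma dvd_pow_of_le {g N m n : ℕ} (h : g ∣ N ^ m) (hN : N ≠ 0) (hg : g ≠ 0) (hgn : g ≤ n) :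
    g ∣ N ^ n := by
  rw [← Nat.factorization_prime_le_iff_dvd hg (pow_ne_zero _ hN)]
  intro q hq
  have h1 := (Nat.factorization_prime_le_iff_dvd hg (pow_ne_zero _ hN)).mpr h q hq
  rw [Nat.factorization_pow] at h1 ⊢
  simp only [Finsupp.smul_apply, smul_eq_mul] at h1 ⊢
  rcases Nat.eq_zero_or_pos (N.factorization q) with h0 | h0
  · rw [h0] at h1 ⊢
    simpa using h1
  · have h2 : g.factorization q < g := Nat.factorization_lt q hg
    calc g.factorization q ≤ n * 1 := by omega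
      _ ≤ n * N.factorization q := Nat.mul_le_mul_left _ h0

lemma dvd_of_sq_dvd_prime_mul {p c T : ℕ} (hp : p.Prime) (hT : T ≠ 0) (h : c ^ 2 ∣ p * T ^ 2) :
    c ∣ T := by
  obtain ⟨c', T', hcop, hc, hT'⟩ := Nat.exists_coprime c T
  have hg : 0 < Nat.gcd c T := Nat.gcd_pos_of_pos_right _ (Nat.pos_of_ne_zero hT)
  generalize Nat.gcd c T = g at hc hT' hg
  subst hc hT'
  have h1 : c' ^ 2 ∣ p := by
    have e1 : (c' * g) ^ 2 = g ^ 2 * c' ^ 2 := by ring
    have e2 : p * (T' * g) ^ 2 = g ^ 2 * (p * T' ^ 2) := by ring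
    rw [e1, e2] at h
    have h4 := Nat.dvd_of_mul_dvd_mul_left (pow_pos hg 2) h
    exact (Nat.Coprime.pow 2 2 hcop).dvd_of_dvd_mul_right h4
  have h5 : c' = 1 := by
    have hsq : Squarefree p := hp.prime.squarefree
    have := hsq c' (by rw [← sq]; exact h1)
    exact Nat.isUnit_iff.mp this
  rw [h5, one_mul]
  exact dvd_mul_left _ _

/-- For every prime `P ≡ 1 mod N³` (large) there is an element `s + Y τ` of norm `P W²` which is
congruent to the positive integer `W` modulo `N`, of positive trace. -/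
lemma minus_element {b e N : ℤ} (hD : b ^ 2 - 4 * e ≠ 0) (hN : 0 < N)
    (hDN : 4 * (b ^ 2 - 4 * e) ∣ N) {P : ℕ} (hP : P.Prime)
    (hPD : 4 * (b ^ 2 - 4 * e).natAbs < P) (hPN : N ^ 3 ∣ (P : ℤ) - 1) :
    ∃ s Y W : ℤ, 0 < Y ∧ 0 < W ∧ N ∣ Y ∧ N ∣ s - W ∧ IsCoprime s Y ∧ 0 < 2 * s + b * Y ∧
      s ^ 2 + b * s * Y + e * Y ^ 2 = P * W ^ 2 := by
  set D : ℤ := b ^ 2 - 4 * e with hDdef
  have hPmod : P ≡ 1 [MOD 4 * D.natAbs] := by
    rw [Nat.ModEq.comm, Nat.modEq_iff_dvd]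
    have h1 : ((4 * D.natAbs : ℕ) : ℤ) ∣ N := by
      rw [Nat.cast_mul, Int.natCast_natAbs]
      have h2 : |4 * D| ∣ N := (abs_dvd _ _).mpr hDN
      rw [abs_mul] at h2
      simpa using h2
    have h3 : N ∣ (P : ℤ) - 1 := (dvd_pow_self N (by norm_num)).trans hPN
    simpa using h1.trans h3
  obtain ⟨x, y, z, hx, hy, hz, hxyz⟩ := legendre hD hP hPD hPmod
  have hPpos : (0 : ℤ) < P := by exact_mod_cast hP.pos
  -- the bound for the content
  set N₀ : ℤ := P * z ^ 2 with hN₀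
  have hN₀pos : 0 < N₀ := by positivity
  set B : ℤ := N₀ * (4 * D * y ^ 2) with hB
  have hB0 : B ≠ 0 := by positivity
  set n : ℕ := B.natAbs with hn
  have hn1 : 1 ≤ n := Int.natAbs_pos.mpr hB0
  have h4N : (4 : ℤ) ∣ N := (dvd_mul_right 4 D).trans hDN
  obtain ⟨r₀, hr₀, hr₀'⟩ := sqrt_lift h4N hPN (n - 1)
  have hexp : n - 1 + 2 = n + 1 := by omega
  rw [hexp] at hr₀
  set Q : ℤ := N ^ (n + 1) with hQ
  have hQpos : 0 < Q := by positivity
  have hNQ : N ∣ Q := dvd_pow_self N (by omega)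
  -- a large square root
  obtain ⟨r, hr, hr', hrP⟩ : ∃ r : ℤ, Q ∣ r ^ 2 - P ∧ N ∣ r - 1 ∧ (P : ℤ) < r := by
    refine ⟨r₀ + Q * (|r₀| + P + 1), ?_, ?_, ?_⟩
    · have : (r₀ + Q * (|r₀| + P + 1)) ^ 2 - P
          = (r₀ ^ 2 - P) + Q * ((|r₀| + P + 1) * (2 * r₀ + Q * (|r₀| + P + 1))) := by ring
      rw [this]
      exact dvd_add hr₀ (dvd_mul_right _ _)
    · have : r₀ + Q * (|r₀| + P + 1) - 1 = (r₀ - 1) + Q * (|r₀| + P + 1) := by ring
      rw [this]
      exact dvd_add hr₀' (Dvd.dvd.mul_right hNQ _)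
    · have h1 : (1 : ℤ) * (|r₀| + P + 1) ≤ Q * (|r₀| + P + 1) := by
        apply mul_le_mul_of_nonneg_right _ (by positivity)
        linarith
      have h2 := neg_abs_le r₀
      linarith
  obtain ⟨ν, hν⟩ := hr
  have hrpos : 0 < r := by linarith
  have hPone : (1 : ℤ) ≤ P := by exact_mod_cast hP.one_lt.le
  have hνpos : 0 < ν := by
    have h1 : 0 < Q * ν := by
      rw [← hν]
      nlinarith
    exact (mul_pos_iff_of_pos_left hQpos).mp h1
  set X₀ : ℤ := x - b * y with hX₀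
  set t : ℤ := 2 * x + 2 * (r * z) with ht
  set μ : ℤ := z ^ 2 * ν with hμ
  have hμpos : 0 < μ := by positivity
  have htpos : 0 < t := by positivity
  set X' : ℤ := N₀ * t + Q * μ * X₀ with hX'
  set Y' : ℤ := Q * μ * (2 * y) with hY'
  set K : ℤ := r * z * t - Q * μ with hK
  have hY'pos : 0 < Y' := by positivity
  have hKpos : 0 < K := by
    have : K = 2 * x * (r * z) + (r * z) ^ 2 + N₀ := by
      rw [hK, hμ, ht, hN₀]
      linear_combination z ^ 2 * hν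
    rw [this]
    have : 0 ≤ 2 * x * (r * z) := by positivity
    positivity
  have hm2 : (r * z) ^ 2 = N₀ + Q * μ := by
    rw [hN₀, hμ]; linear_combination z ^ 2 * hν
  have hnorm : X' ^ 2 + b * X' * Y' + e * Y' ^ 2 = P * (z * K) ^ 2 := by
    have h1 : (P : ℤ) * (z * K) ^ 2 = N₀ * K ^ 2 := by rw [hN₀]; ring
    rw [h1, hX', hY', hK, hX₀]
    rw [ht, hDdef] at *
    linear_combination (Q * μ) ^ 2 * hxyz - N₀ * (2 * x + 2 * (r * z)) ^ 2 * hm2
  have htrace : 0 < 2 * X' + b * Y' := by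
    have : 2 * X' + b * Y' = 2 * (N₀ * t) + 2 * x * (Q * μ) := by
      rw [hX', hY', hX₀]; ring
    rw [this]
    have : 0 ≤ 2 * x * (Q * μ) := by positivity
    positivity
  have hcong : X' - r * (z * K) = Q * (μ * (X₀ - t + r * z)) := by
    rw [hX', hK]
    linear_combination (-t) * hm2
  -- remove the content
  have hgpos : 0 < Int.gcd X' Y' := Int.gcd_pos_of_ne_zero_right _ hY'pos.ne'
  obtain ⟨g₁, s, Y, hg₁, hsY, hXs, hYY⟩ := Int.exists_gcd_one' hgpos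
  have hg₁Z : (0 : ℤ) < g₁ := by exact_mod_cast hg₁
  have hzK : 0 < z * K := mul_pos hz hKpos
  have hnorm' : (g₁ : ℤ) ^ 2 * (s ^ 2 + b * s * Y + e * Y ^ 2) = P * (z * K) ^ 2 := by
    rw [← hnorm, hXs, hYY]; ring
  obtain ⟨T, hT⟩ : ∃ T : ℕ, (T : ℤ) = z * K := ⟨(z * K).toNat, Int.toNat_of_nonneg hzK.le⟩
  have hT0 : T ≠ 0 := by
    rintro rfl
    rw [Nat.cast_zero] at hT
    omega
  have hg₁T : g₁ ∣ T := by
    apply dvd_of_sq_dvd_prime_mul hP hT0
    have : (g₁ : ℤ) ^ 2 ∣ P * (T : ℤ) ^ 2 := by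
      rw [hT]; exact ⟨_, hnorm'.symm⟩
    exact_mod_cast this
  obtain ⟨W', hW'⟩ := hg₁T
  have hW : z * K = g₁ * (W' : ℤ) := by rw [← hT, hW']; push_cast; ring
  have hWpos : (0 : ℤ) < W' := by
    rw [hW] at hzK
    exact (mul_pos_iff_of_pos_left hg₁Z).mp hzK
  -- the common part of the content and `Q`
  have hgQ : 0 < Int.gcd (g₁ : ℤ) Q := Int.gcd_pos_of_ne_zero_right _ hQpos.ne'
  obtain ⟨g, c', Q', hg, hcQ, hc', hQ'⟩ := Int.exists_gcd_one' hgQ
  have hgZ : (0 : ℤ) < g := by exact_mod_cast hg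
  have hgdQ : (g : ℤ) ∣ Q := ⟨Q', by rw [hQ']; ring⟩
  have hgX : (g : ℤ) ∣ X' := by
    rw [hXs, hc']; exact ⟨s * c', by ring⟩
  have hgB : (g : ℤ) ∣ B := by
    have h1 : (g : ℤ) ∣ N₀ * t := by
      have : N₀ * t = X' - Q * (μ * X₀) := by rw [hX']; ring
      rw [this]
      exact dvd_sub hgX (Dvd.dvd.mul_right hgdQ _)
    have h2 : B = N₀ * t * (2 * x - 2 * (r * z)) + Q * (4 * N₀ * μ) := by
      rw [hB, ht]
      have h3 : 4 * D * y ^ 2 = 4 * x ^ 2 - 4 * N₀ := by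
        linear_combination (-4) * hxyz
      rw [h3]
      linear_combination 4 * N₀ * hm2
    rw [h2]
    exact dvd_add (Dvd.dvd.mul_right h1 _) (Dvd.dvd.mul_right hgdQ _)
  have hgn : g ≤ n := by
    apply Nat.le_of_dvd (by omega)
    rw [hn]
    exact Int.natCast_dvd.mp hgB
  obtain ⟨N', hN'⟩ : ∃ N' : ℕ, (N' : ℤ) = N := ⟨N.toNat, Int.toNat_of_nonneg hN.le⟩
  have hN'0 : N' ≠ 0 := by rintro rfl; rw [Nat.cast_zero] at hN'; omega
  have hgN : (g : ℤ) ∣ N ^ n := by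
    have h1 : g ∣ N' ^ (n + 1) := by
      have : (g : ℤ) ∣ (N' : ℤ) ^ (n + 1) := by rw [hN']; exact hgdQ
      exact_mod_cast this
    have h2 := dvd_pow_of_le h1 hN'0 (by omega) hgn
    rw [← hN']
    exact_mod_cast h2
  obtain ⟨h, hh⟩ := hgN
  have hNQ' : N ∣ Q' := by
    refine ⟨h, ?_⟩
    apply mul_right_cancel₀ hgZ.ne'
    rw [← hQ', hQ, pow_succ, hh]; ring
  have hcop : IsCoprime Q' c' := by
    rw [Int.isCoprime_iff_gcd_eq_one, Int.gcd_comm]; exact hcQ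
  have hYpos : 0 < Y := by
    rw [hYY] at hY'pos
    exact (mul_pos_iff_of_pos_right hg₁Z).mp hY'pos
  refine ⟨s, Y, W', hYpos, hWpos, ?_, ?_, Int.isCoprime_iff_gcd_eq_one.mpr hsY, ?_, ?_⟩
  · refine hNQ'.trans ?_
    refine hcop.dvd_of_dvd_mul_left (?_ : Q' ∣ c' * Y)
    have h1 : (g : ℤ) * (c' * Y) = g * (Q' * (μ * (2 * y))) := by
      have h2 : Y * g₁ = Q * μ * (2 * y) := by rw [← hYY]
      rw [hc', hQ'] at h2
      linear_combination h2
    have h2 := mul_left_cancel₀ hgZ.ne' h1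
    rw [h2]
    exact dvd_mul_right _ _
  · have h1 : Q' ∣ s - r * W' := by
      refine hcop.dvd_of_dvd_mul_left (?_ : Q' ∣ c' * (s - r * W'))
      have h1 : (g : ℤ) * (c' * (s - r * W')) = g * (Q' * (μ * (X₀ - t + r * z))) := by
        have h2 : s * g₁ - r * (g₁ * W') = Q * (μ * (X₀ - t + r * z)) := by
          rw [← hcong, hXs, hW]
        rw [hc', hQ'] at h2
        linear_combination h2
      have h2 := mul_left_cancel₀ hgZ.ne' h1
      rw [h2]
      exact dvd_mul_right _ _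
    have h2 : s - (W' : ℤ) = (s - r * W') + (r - 1) * W' := by ring
    rw [h2]
    exact dvd_add (hNQ'.trans h1) (Dvd.dvd.mul_right hr' _)
  · have h1 : 2 * X' + b * Y' = (2 * s + b * Y) * g₁ := by rw [hXs, hYY]; ring
    rw [h1] at htrace
    exact (mul_pos_iff_of_pos_right hg₁Z).mp htrace
  · apply mul_left_cancel₀ (pow_ne_zero 2 hg₁Z.ne')
    rw [hnorm', hW]; ring

end Pool.Agent.H15Quad
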