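import Mathlib

/-!
# Quadratic polynomials and the Liouville function: solutions of `S² - 4 M A² = E`
-/

set_option autoImplicit false

namespace Pool.Agent.H15Quad

/-- Powers of `U + V √(4M)`. -/
def pw (M U V : ℤ) : ℕ → ℤ × ℤ
  | 0 => (1, 0)
  | n + 1 => ((pw M U V n).1 * U + 4 * M * (pw M U V n).2 * V,
      (pw M U V n).1 * V + (pw M U V n).2 * U)

lemma pw_norm {M U V : ℤ} (h : U ^ 2 - 4 * M * V ^ 2 = 1) (n : ℕ) :
    (pw M U V n).1 ^ 2 - 4 * M * (pw M U V n).2 ^ 2 = 1 := by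
  induction n with
  | zero => simp [pw]
  | succ n ih =>
    simp only [pw]
    have : ∀ x y : ℤ, x ^ 2 - 4 * M * y ^ 2 = 1 →
        (x * U + 4 * M * y * V) ^ 2 - 4 * M * (x * V + y * U) ^ 2 = 1 := by
      intro x y hxy
      have : (x * U + 4 * M * y * V) ^ 2 - 4 * M * (x * V + y * U) ^ 2
          = (x ^ 2 - 4 * M * y ^ 2) * (U ^ 2 - 4 * M * V ^ 2) := by ring
      rw [this, hxy, h]; norm_num
    exact this _ _ ih

lemma pw_cong {M U V q : ℤ} (h1 : q ∣ U - 1) (h2 : q ∣ V ^ 2) (n : ℕ) :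
    q ∣ (pw M U V n).1 - 1 ∧ q * V ∣ (pw M U V n).2 - n * V := by
  induction n with
  | zero => simp [pw]
  | succ n ih =>
    obtain ⟨hA, hB⟩ := ih
    simp only [pw]
    generalize (pw M U V n).1 = x at hA hB ⊢
    generalize (pw M U V n).2 = y at hA hB ⊢
    have hB' : q ∣ y * V := by
      have : y * V = (y - n * V) * V + n * V ^ 2 := by ring
      rw [this]
      refine dvd_add (Dvd.dvd.mul_right ((dvd_mul_right q V).trans hB) _) (Dvd.dvd.mul_left h2 _)
    constructor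
    · have : x * U + 4 * M * y * V - 1 = (x - 1) * U + (U - 1) + 4 * M * (y * V) := by ring
      rw [this]
      exact dvd_add (dvd_add (Dvd.dvd.mul_right hA _) h1) (Dvd.dvd.mul_left hB' _)
    · have : x * V + y * U - ((n + 1 : ℕ) : ℤ) * V
          = (x - 1) * V + (y - n * V) * U + n * ((U - 1) * V) := by push_cast; ring
      rw [this]
      refine dvd_add (dvd_add (mul_dvd_mul_right hA V) (Dvd.dvd.mul_right hB _)) ?_
      exact Dvd.dvd.mul_left (mul_dvd_mul_right h1 V) _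

lemma pw_pos {M U V : ℤ} (hM : 0 < M) (hU : 0 < U) (hV : 0 < V) (n : ℕ) :
    0 < (pw M U V n).1 ∧ 0 ≤ (pw M U V n).2 ∧ (1 ≤ n → 0 < (pw M U V n).2) := by
  induction n with
  | zero => simp [pw]
  | succ n ih =>
    obtain ⟨hA, hB, -⟩ := ih
    simp only [pw]
    refine ⟨by positivity, by positivity, fun _ => by positivity⟩

/-- `(S, A)` is a positive solution of `S² - 4 M A² = E`, congruent to `(S₀, 1)` mod `R`. -/
structure Good (M E R S₀ S A : ℤ) : Prop where
  eq : S ^ 2 - 4 * M * A ^ 2 = E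
  cS : R ∣ S - S₀
  cA : R ∣ A - 1
  pS : 0 < S
  pA : 0 < A

/-- `(U, V)` is a unit, congruent to `(1, 0)` mod `R`. -/
structure Unt (M R U V : ℤ) : Prop where
  eq : U ^ 2 - 4 * M * V ^ 2 = 1
  cU : R ∣ U - 1
  cV : R ∣ V
  pU : 0 < U
  pV : 0 ≤ V

lemma Good.mul {M E R S₀ S A U V : ℤ} (hM : 0 < M) (h : Good M E R S₀ S A) (hu : Unt M R U V) :
    Good M E R S₀ (U * S + 4 * M * V * A) (U * A + V * S) where
  eq := by
    have : (U * S + 4 * M * V * A) ^ 2 - 4 * M * (U * A + V * S) ^ 2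
          = (U ^ 2 - 4 * M * V ^ 2) * (S ^ 2 - 4 * M * A ^ 2) := by ring
    rw [this, h.eq, hu.eq]; ring
  cS := by
    have : U * S + 4 * M * V * A - S₀ = (U - 1) * S + (S - S₀) + V * (4 * M * A) := by ring
    rw [this]
    exact dvd_add (dvd_add (Dvd.dvd.mul_right hu.cU _) h.cS) (Dvd.dvd.mul_right hu.cV _)
  cA := by
    have : U * A + V * S - 1 = (U - 1) * A + (A - 1) + V * S := by ring
    rw [this]
    exact dvd_add (dvd_add (Dvd.dvd.mul_right hu.cU _) h.cA) (Dvd.dvd.mul_right hu.cV _)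
  pS := by
    have h1 := mul_pos hu.pU h.pS
    have h2 : 0 ≤ 4 * M * V * A := by
      have := hu.pV; have := h.pA; positivity
    linarith
  pA := by
    have h1 := mul_pos hu.pU h.pA
    have h2 : 0 ≤ V * S := mul_nonneg hu.pV h.pS.le
    linarith

lemma Unt.pow {M R U V : ℤ} (hM : 0 < M) (h : Unt M R U V) (hV : 0 < V) (n : ℕ) :
    Unt M R (pw M U V n).1 (pw M U V n).2 where
  eq := pw_norm h.eq n
  cU := (pw_cong h.cU (dvd_pow h.cV (by norm_num)) n).1
  cV := by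
    have h1 := (pw_cong (M := M) h.cU (dvd_pow h.cV (by norm_num)) n).2
    have h2 : (pw M U V n).2 = ((pw M U V n).2 - n * V) + n * V := by ring
    rw [h2]
    exact dvd_add ((dvd_mul_right R V).trans h1) (Dvd.dvd.mul_left h.cV _)
  pU := (pw_pos hM h.pU hV n).1
  pV := (pw_pos hM h.pU hV n).2.1

/-- Units congruent to `1` exist for every modulus. -/
lemma exists_unt {M R : ℤ} (hM : 0 < M) (hsq : ¬ IsSquare M) (hR : 0 < R) :
    ∃ U V : ℤ, Unt M R U V ∧ 0 < V ∧ 1 < U := by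
  have hd : 0 < 4 * M * R ^ 2 := by positivity
  have hns : ¬ IsSquare (4 * M * R ^ 2) := by
    rintro ⟨k, hk⟩
    apply hsq
    have h1 : (2 * R) ^ 2 ∣ k ^ 2 := ⟨M, by linarith⟩
    rw [Int.pow_dvd_pow_iff (by norm_num)] at h1
    obtain ⟨e, rfl⟩ := h1
    refine ⟨e, ?_⟩
    have h2 : (2 * R) ^ 2 * M = (2 * R) ^ 2 * (e * e) := by linear_combination hk
    exact mul_left_cancel₀ (by positivity) h2
  obtain ⟨x, y, hxy, hy⟩ := Pell.exists_of_not_isSquare hd hns
  have hx : x ≠ 0 := by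
    rintro rfl
    have : 0 < 4 * M * R ^ 2 * y ^ 2 := by positivity
    linarith
  refine ⟨1 + 8 * M * (R * |y|) ^ 2, 2 * |x| * (R * |y|), ⟨?_, ?_, ?_, ?_, ?_⟩, ?_, ?_⟩
  · have h1 : |x| ^ 2 = 1 + 4 * M * R ^ 2 * |y| ^ 2 := by
      rw [sq_abs, sq_abs]; linarith
    linear_combination (-16 * M * (R * |y|) ^ 2) * h1
  · exact ⟨8 * M * (R * |y| ^ 2), by ring⟩
  · exact ⟨2 * |x| * |y|, by ring⟩
  · positivity
  · positivity
  · have := abs_pos.mpr hx
    have := abs_pos.mpr hy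
    positivity
  · have := abs_pos.mpr hy
    have : 0 < 8 * M * (R * |y|) ^ 2 := by positivity
    linarith

end Pool.Agent.H15Quad
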