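import Pool.Agent.Lib_helper15.Quad.Four

/-!
# Quadratic polynomials and completely multiplicative functions: both signs in `[x, C x]`
-/

set_option autoImplicit false

namespace Pool.Agent.H15Quad

/-- The values of a quadratic polynomial. -/
def qv (a b c n : ℤ) : ℤ := a * n ^ 2 + b * n + c

/-- `h` is completely multiplicative on the nonzero integers with values `±1`, and takes the value `-1`
at a prime `≡ 1 mod N`, for every `N`. -/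
structure Mult (h : ℤ → ℤ) : Prop where
  mul : ∀ m n : ℤ, m ≠ 0 → n ≠ 0 → h (m * n) = h m * h n
  val : ∀ m : ℤ, m ≠ 0 → h m = 1 ∨ h m = -1
  prime : ∀ N : ℕ, 0 < N → ∃ P : ℕ, P.Prime ∧ P ≡ 1 [MOD N] ∧ h P = -1

lemma qv_ne_zero {a b c n : ℤ} (ha : a ≠ 0) (hn : |b| + |c| + 1 ≤ n) : qv a b c n ≠ 0 := by
  intro h0
  unfold qv at h0
  have hb := abs_nonneg b
  have hc := abs_nonneg c
  have hn1 : 1 ≤ n := by linarith
  have h1 : |a * n ^ 2| = |b * n + c| := by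
    have : a * n ^ 2 = -(b * n + c) := by linarith
    rw [this, abs_neg]
  have h2 : |b * n + c| ≤ |b| * n + |c| := by
    calc |b * n + c| ≤ |b * n| + |c| := abs_add_le _ _
      _ = |b| * n + |c| := by rw [abs_mul, abs_of_pos (by linarith : 0 < n)]
  have h3 : n ^ 2 ≤ |a * n ^ 2| := by
    rw [abs_mul, abs_of_nonneg (sq_nonneg n)]
    have : 1 ≤ |a| := Int.one_le_abs ha
    nlinarith [sq_nonneg n]
  nlinarith

lemma Mult.sq {h : ℤ → ℤ} (hh : Mult h) {m : ℤ} (hm : m ≠ 0) : h (m * m) = 1 := by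
  rw [hh.mul m m hm hm]
  rcases hh.val m hm with h1 | h1 <;> rw [h1] <;> norm_num

lemma both_pos {h : ℤ → ℤ} (hh : Mult h) {a b c : ℤ} (ha : 0 < a)
    (hD : b ^ 2 - 4 * (a * c) ≠ 0) :
    ∃ C X₀ : ℤ, 0 < C ∧ ∀ X : ℤ, X₀ ≤ X →
      (∃ k : ℤ, X ≤ k ∧ k ≤ C * X ∧ h (qv a b c k) = 1) ∧
      (∃ k : ℤ, X ≤ k ∧ k ≤ C * X ∧ h (qv a b c k) = -1) := by
  set N : ℤ := (4 * a * |b ^ 2 - 4 * (a * c)|) ^ 3 with hN
  have hNpos : 0 < N := by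
    have := abs_pos.mpr hD
    positivity
  obtain ⟨P, hP, hPmod, hhP⟩ := hh.prime N.toNat (by omega)
  have hPN : N ∣ (P : ℤ) - 1 := by
    have := (Nat.modEq_iff_dvd.mp hPmod.symm)
    rw [Int.toNat_of_nonneg hNpos.le] at this
    simpa using this
  obtain ⟨C, X₀, hC, hmain⟩ := four_values ha hD hP hPN
  refine ⟨C, max X₀ (|b| + |c| + 1), hC, fun X hX => ?_⟩
  obtain ⟨k₁, k₂, k₃, k₄, ⟨l₁, u₁⟩, ⟨l₂, u₂⟩, ⟨l₃, u₃⟩, ⟨l₄, u₄⟩, Q, hQ⟩ :=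
    hmain X ((le_max_left _ _).trans hX)
  have hX' : |b| + |c| + 1 ≤ X := (le_max_right _ _).trans hX
  have n₁ : qv a b c k₁ ≠ 0 := qv_ne_zero ha.ne' (hX'.trans l₁)
  have n₂ : qv a b c k₂ ≠ 0 := qv_ne_zero ha.ne' (hX'.trans l₂)
  have n₃ : qv a b c k₃ ≠ 0 := qv_ne_zero ha.ne' (hX'.trans l₃)
  have n₄ : qv a b c k₄ ≠ 0 := qv_ne_zero ha.ne' (hX'.trans l₄)
  have hP0 : (P : ℤ) ≠ 0 := by exact_mod_cast hP.ne_zero
  have hQ' : (P : ℤ) * (qv a b c k₁ * qv a b c k₂ * qv a b c k₃ * qv a b c k₄) = Q * Q := hQ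
  have hQ0 : Q ≠ 0 := by
    rintro rfl
    have : (P : ℤ) * (qv a b c k₁ * qv a b c k₂ * qv a b c k₃ * qv a b c k₄) ≠ 0 := by positivity
    apply this
    rw [hQ']; ring
  have hprod : h (qv a b c k₁) * h (qv a b c k₂) * h (qv a b c k₃) * h (qv a b c k₄) = -1 := by
    have h1 : h (Q * Q) = 1 := hh.sq hQ0
    rw [← hQ', hh.mul _ _ hP0 (by positivity), hh.mul _ _ (by positivity) n₄,
      hh.mul _ _ (by positivity) n₃, hh.mul _ _ n₁ n₂, hhP] at h1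
    linarith
  constructor
  · by_contra hcon
    push Not at hcon
    have v₁ := (hh.val _ n₁).resolve_left (hcon k₁ l₁ u₁)
    have v₂ := (hh.val _ n₂).resolve_left (hcon k₂ l₂ u₂)
    have v₃ := (hh.val _ n₃).resolve_left (hcon k₃ l₃ u₃)
    have v₄ := (hh.val _ n₄).resolve_left (hcon k₄ l₄ u₄)
    rw [v₁, v₂, v₃, v₄] at hprod
    norm_num at hprod
  · by_contra hcon
    push Not at hcon
    have v₁ := (hh.val _ n₁).resolve_right (hcon k₁ l₁ u₁)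
    have v₂ := (hh.val _ n₂).resolve_right (hcon k₂ l₂ u₂)
    have v₃ := (hh.val _ n₃).resolve_right (hcon k₃ l₃ u₃)
    have v₄ := (hh.val _ n₄).resolve_right (hcon k₄ l₄ u₄)
    rw [v₁, v₂, v₃, v₄] at hprod
    norm_num at hprod

lemma both_ne {h : ℤ → ℤ} (hh : Mult h) {a b c : ℤ} (ha : a ≠ 0)
    (hD : b ^ 2 - 4 * (a * c) ≠ 0) :
    ∃ C X₀ : ℤ, 0 < C ∧ ∀ X : ℤ, X₀ ≤ X →
      (∃ k : ℤ, X ≤ k ∧ k ≤ C * X ∧ h (qv a b c k) = 1) ∧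
      (∃ k : ℤ, X ≤ k ∧ k ≤ C * X ∧ h (qv a b c k) = -1) := by
  rcases lt_or_gt_of_ne ha with hneg | hpos
  · obtain ⟨C, X₀, hC, hmain⟩ := both_pos hh (a := -a) (b := -b) (c := -c) (by linarith)
      (by intro h0; apply hD; linear_combination h0)
    refine ⟨C, max X₀ (|b| + |c| + 1), hC, fun X hX => ?_⟩
    obtain ⟨⟨k₁, l₁, u₁, e₁⟩, ⟨k₂, l₂, u₂, e₂⟩⟩ := hmain X ((le_max_left _ _).trans hX)
    have hX' : |b| + |c| + 1 ≤ X := (le_max_right _ _).trans hX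
    have n₁ : qv a b c k₁ ≠ 0 := qv_ne_zero ha (hX'.trans l₁)
    have n₂ : qv a b c k₂ ≠ 0 := qv_ne_zero ha (hX'.trans l₂)
    have f : ∀ k : ℤ, qv a b c k ≠ 0 → h (qv (-a) (-b) (-c) k) = h (-1) * h (qv a b c k) := by
      intro k hk
      rw [← hh.mul _ _ (by norm_num) hk]
      congr 1
      unfold qv; ring
    rw [f k₁ n₁] at e₁
    rw [f k₂ n₂] at e₂
    rcases hh.val (-1) (by norm_num) with h1 | h1
    · rw [h1, one_mul] at e₁ e₂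
      exact ⟨⟨k₁, l₁, u₁, e₁⟩, ⟨k₂, l₂, u₂, e₂⟩⟩
    · rw [h1] at e₁ e₂
      exact ⟨⟨k₂, l₂, u₂, by linarith⟩, ⟨k₁, l₁, u₁, by linarith⟩⟩
  · exact both_pos hh hpos hD

/-- Both signs occur in every interval `[x, C x]`, `x ≥ 1`. -/
lemma both_nat {h : ℤ → ℤ} (hh : Mult h) {a b c : ℤ} (ha : a ≠ 0)
    (hD : b ^ 2 - 4 * (a * c) ≠ 0) :
    ∃ C : ℕ, ∀ x : ℕ, 1 ≤ x →
      (∃ n : ℕ, x ≤ n ∧ n ≤ C * x ∧ h (qv a b c n) = 1) ∧
      (∃ n : ℕ, x ≤ n ∧ n ≤ C * x ∧ h (qv a b c n) = -1) := by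
  obtain ⟨C, X₀, hC, hmain⟩ := both_ne hh ha hD
  set X₁ : ℤ := |X₀| + 1 with hX₁
  have hX₁pos : 1 ≤ X₁ := by
    have := abs_nonneg X₀
    linarith
  refine ⟨(C * X₁).toNat, fun x hx => ?_⟩
  have hxZ : (1 : ℤ) ≤ x := by exact_mod_cast hx
  have hX0 : X₀ ≤ X₁ * x := by
    have h1 := le_abs_self X₀
    have h2 : X₁ * 1 ≤ X₁ * x := mul_le_mul_of_nonneg_left hxZ (by linarith)
    linarith
  have hxX : (x : ℤ) ≤ X₁ * x := by nlinarith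
  have key : ∀ k : ℤ, X₁ * x ≤ k → k ≤ C * (X₁ * x) →
      x ≤ k.toNat ∧ k.toNat ≤ (C * X₁).toNat * x ∧ ((k.toNat : ℕ) : ℤ) = k := by
    intro k hk1 hk2
    have hk0 : 0 ≤ k := by linarith
    refine ⟨by omega, ?_, Int.toNat_of_nonneg hk0⟩
    have : ((k.toNat : ℕ) : ℤ) ≤ (((C * X₁).toNat * x : ℕ) : ℤ) := by
      rw [Int.toNat_of_nonneg hk0]
      rw [Nat.cast_mul, Int.toNat_of_nonneg (by positivity)]
      linarith
    exact_mod_cast this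
  obtain ⟨⟨k₁, l₁, u₁, e₁⟩, ⟨k₂, l₂, u₂, e₂⟩⟩ := hmain (X₁ * x) hX0
  obtain ⟨a₁, b₁, c₁⟩ := key k₁ l₁ u₁
  obtain ⟨a₂, b₂, c₂⟩ := key k₂ l₂ u₂
  exact ⟨⟨k₁.toNat, a₁, b₁, by rw [c₁]; exact e₁⟩, ⟨k₂.toNat, a₂, b₂, by rw [c₂]; exact e₂⟩⟩

end Pool.Agent.H15Quad
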