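import Pool.Agent.Lib_helper15.Quad.Choice
import Pool.Agent.Lib_helper15.Quad.Alg

/-!
# Quadratic polynomials and the Liouville function: sizes
-/

set_option autoImplicit false

namespace Pool.Agent.H15Quad

lemma exists_exp {κ : ℤ} (hκ : κ ≠ 0) {p : ℕ} (hcop : IsCoprime (p : ℤ) κ) (r : ℕ) :
    ∃ i : ℕ, r ≤ i ∧ κ ∣ (p : ℤ) ^ (i + 1) - 1 := by
  set n : ℕ := κ.natAbs with hn
  have hn0 : 0 < n := Int.natAbs_pos.mpr hκ
  have hcop' : Nat.Coprime p n := by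
    rw [Int.isCoprime_iff_gcd_eq_one] at hcop
    rw [Nat.Coprime, hn]
    simpa [Int.gcd] using hcop
  have hφ : 1 ≤ n.totient := Nat.totient_pos.mpr hn0
  have h1 : p ^ (n.totient * (r + 1)) ≡ 1 [MOD n] := by
    rw [pow_mul]
    have := (Nat.ModEq.pow_totient hcop').pow (r + 1)
    simpa using this
  have h2 : r + 1 ≤ n.totient * (r + 1) := Nat.le_mul_of_pos_left _ hφ
  refine ⟨n.totient * (r + 1) - 1, by omega, ?_⟩
  rw [show n.totient * (r + 1) - 1 + 1 = n.totient * (r + 1) by omega]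
  have h3 : (n : ℤ) ∣ (p : ℤ) ^ (n.totient * (r + 1)) - 1 := by
    have := Nat.modEq_iff_dvd.mp h1.symm
    push_cast at this
    exact this
  rw [hn] at h3
  exact Int.natAbs_dvd.mp h3

lemma le_of_good {M E S A : ℤ} (hM : 0 < M) (h : S ^ 2 - 4 * M * A ^ 2 = E) (hA : 0 < A) :
    S ≤ (4 * M + |E|) * A := by
  have h1 : S ^ 2 ≤ ((4 * M + |E|) * A) ^ 2 := by
    have hE := le_abs_self E
    have hE0 := abs_nonneg E
    have h2 : S ^ 2 ≤ (4 * M + |E|) * A ^ 2 := by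
      have : |E| * 1 ≤ |E| * A ^ 2 := by
        apply mul_le_mul_of_nonneg_left _ hE0
        nlinarith
      nlinarith
    have h3 : (1 : ℤ) * ((4 * M + |E|) * A ^ 2) ≤ (4 * M + |E|) * ((4 * M + |E|) * A ^ 2) := by
      apply mul_le_mul_of_nonneg_right _ (by positivity)
      linarith
    calc S ^ 2 ≤ (4 * M + |E|) * A ^ 2 := h2
      _ ≤ (4 * M + |E|) * ((4 * M + |E|) * A ^ 2) := by linarith
      _ = ((4 * M + |E|) * A) ^ 2 := by ring
  have h2 : 0 ≤ (4 * M + |E|) * A := by positivity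
  exact abs_le_of_sq_le_sq' h1 h2 |>.2

/-- Every interval `[X, C X]` contains the `A` of a good state. -/
lemma states {M E R S₀ h q : ℤ} (hM : 0 < M) {U V : ℤ} (hu : Unt M (R * q) U V)
    (hV : 0 < V) (hU : 1 < U) {S₁ A₁ : ℤ} (hg : Good M E R S₀ S₁ A₁) (hW : q ∣ Wf M h S₁ A₁) :
    ∃ C : ℤ, 0 < C ∧ ∀ X : ℤ, A₁ ≤ X → ∃ S A : ℤ, Good M E R S₀ S A ∧ q ∣ Wf M h S A ∧
      X ≤ A ∧ A ≤ C * X := by
  have hu' : Unt M R U V :=
    ⟨hu.eq, (dvd_mul_right R q).trans hu.cU, (dvd_mul_right R q).trans hu.cV, hu.pU, hu.pV⟩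
  have hC : 0 < U + V * (4 * M + |E|) := by positivity
  refine ⟨U + V * (4 * M + |E|), hC, fun X hX => ?_⟩
  induction X, hX using Int.leInduction with
  | base =>
    refine ⟨S₁, A₁, hg, hW, le_refl _, ?_⟩
    have h1 : (1 : ℤ) * A₁ ≤ (U + V * (4 * M + |E|)) * A₁ :=
      mul_le_mul_of_nonneg_right (by linarith) hg.pA.le
    linarith
  | succ X hX ih =>
    obtain ⟨S, A, h1, h2, h3, h4⟩ := ih
    rcases eq_or_lt_of_le h3 with h5 | h5
    · refine ⟨_, _, h1.mul hM hu', ?_, ?_, ?_⟩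
      · rw [Wf_mul]
        exact dvd_add (Dvd.dvd.mul_left h2 _)
          (Dvd.dvd.mul_right ((dvd_mul_left q R).trans hu.cV) _)
      · have h6 : 2 * A ≤ U * A := mul_le_mul_of_nonneg_right (by linarith) h1.pA.le
        have h7 : 0 ≤ V * S := mul_nonneg hV.le h1.pS.le
        have := h1.pA
        linarith
      · have h6 := le_of_good hM h1.eq h1.pA
        have h7 : V * S ≤ V * ((4 * M + |E|) * A) := mul_le_mul_of_nonneg_left h6 hV.le
        have h8 : U * A + V * S ≤ (U + V * (4 * M + |E|)) * A := by linarith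
        rw [h5]
        linarith
    · refine ⟨S, A, h1, h2, h5, ?_⟩
      linarith

/-- Linear forms in a good state which are positive on the limiting direction are of the order of `A`. -/
lemma size_form {M E : ℤ} (hM : 0 < M) {ξ y ξ' y' e δ : ℤ} (hδ : 0 < δ)
    (hγ : 0 < ((ξ : ℝ) + Real.sqrt M * y) * (ξ' + Real.sqrt M * y')) :
    ∃ N A₁ : ℕ, 0 < N ∧ ∀ S A n : ℤ, S ^ 2 - 4 * M * A ^ 2 = E → 0 < S → 0 < A → (A₁ : ℤ) ≤ A →
      δ * n = 2 * A * (ξ * ξ' + M * y * y') + S * (y * ξ' + y' * ξ) - e →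
      A ≤ N * n ∧ n ≤ N * A := by
  set σ : ℝ := Real.sqrt M with hσ
  have hMR : (0 : ℝ) < M := by exact_mod_cast hM
  have hσpos : 0 < σ := Real.sqrt_pos.mpr hMR
  have hσ2 : σ ^ 2 = M := Real.sq_sqrt hMR.le
  set γ : ℝ := ((ξ : ℝ) + σ * y) * (ξ' + σ * y') with hγdef
  set β : ℝ := (y : ℝ) * ξ' + y' * ξ with hβ
  set c₀ : ℝ := |(E : ℝ)| * |β| + |(e : ℝ)| with hc₀
  have hc₀nn : 0 ≤ c₀ := by positivity
  have hδR : (0 : ℝ) < δ := by exact_mod_cast hδ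
  refine ⟨⌈(δ : ℝ) / γ⌉₊ + ⌈3 * γ / δ⌉₊, ⌈c₀ / γ⌉₊, ?_, ?_⟩
  · have : 0 < ⌈(δ : ℝ) / γ⌉₊ := Nat.ceil_pos.mpr (by positivity)
    omega
  · intro S A n hE hS hA hA₁ hn
    have hSR : (1 : ℝ) ≤ S := by exact_mod_cast hS
    have hAR : (0 : ℝ) < A := by exact_mod_cast hA
    have hER : ((S : ℝ) - 2 * σ * A) * (S + 2 * σ * A) = E := by
      have : ((S ^ 2 - 4 * M * A ^ 2 : ℤ) : ℝ) = E := by rw [hE]
      push_cast at this
      linear_combination this - 4 * (A : ℝ) ^ 2 * hσ2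
    have hdiff : |(S : ℝ) - 2 * σ * A| ≤ |(E : ℝ)| := by
      rw [← hER, abs_mul]
      have h1 : (1 : ℝ) ≤ |(S : ℝ) + 2 * σ * A| := by
        have : 0 < 2 * σ * A := by positivity
        rw [abs_of_pos (by linarith)]
        linarith
      calc |(S : ℝ) - 2 * σ * A| = |(S : ℝ) - 2 * σ * A| * 1 := (mul_one _).symm
        _ ≤ |(S : ℝ) - 2 * σ * A| * |(S : ℝ) + 2 * σ * A| :=
          mul_le_mul_of_nonneg_left h1 (abs_nonneg _)
    have hnR : (δ : ℝ) * n = 2 * A * γ + ((S : ℝ) - 2 * σ * A) * β - e := by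
      have : ((δ * n : ℤ) : ℝ)
          = ((2 * A * (ξ * ξ' + M * y * y') + S * (y * ξ' + y' * ξ) - e : ℤ) : ℝ) := by rw [hn]
      push_cast at this
      rw [this, hγdef, hβ]
      linear_combination (-2 * (A : ℝ) * y * y') * hσ2
    have herr : |((S : ℝ) - 2 * σ * A) * β - e| ≤ c₀ := by
      calc |((S : ℝ) - 2 * σ * A) * β - e| ≤ |((S : ℝ) - 2 * σ * A) * β| + |(e : ℝ)| := abs_sub _ _
        _ = |(S : ℝ) - 2 * σ * A| * |β| + |(e : ℝ)| := by rw [abs_mul]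
        _ ≤ |(E : ℝ)| * |β| + |(e : ℝ)| := by
          have := mul_le_mul_of_nonneg_right hdiff (abs_nonneg β)
          linarith
    have hcA : c₀ ≤ A * γ := by
      have h1 : c₀ / γ ≤ ⌈c₀ / γ⌉₊ := Nat.le_ceil _
      have h2 : (⌈c₀ / γ⌉₊ : ℝ) ≤ A := by exact_mod_cast hA₁
      have h3 := h1.trans h2
      rwa [div_le_iff₀ hγ] at h3
    obtain ⟨h1, h2⟩ := abs_le.mp herr
    have hlow : (A : ℝ) * γ ≤ δ * n := by rw [hnR]; linarith
    have hup : (δ : ℝ) * n ≤ 3 * γ * A := by rw [hnR]; linarith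
    have hnpos : (0 : ℝ) < n := by
      have : 0 < (δ : ℝ) * n := lt_of_lt_of_le (by positivity) hlow
      exact (mul_pos_iff_of_pos_left hδR).mp this
    have hN1 : (δ : ℝ) / γ ≤ ⌈(δ : ℝ) / γ⌉₊ := Nat.le_ceil _
    have hN2 : 3 * γ / (δ : ℝ) ≤ ⌈3 * γ / (δ : ℝ)⌉₊ := Nat.le_ceil _
    constructor
    · have : (A : ℝ) ≤ ((⌈(δ : ℝ) / γ⌉₊ + ⌈3 * γ / (δ : ℝ)⌉₊ : ℕ) : ℝ) * n := by
        push_cast
        have h3 : (A : ℝ) ≤ (δ / γ) * n := by
          rw [div_mul_eq_mul_div, le_div_iff₀ hγ]; exact hlow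
        have h4 : ((δ : ℝ) / γ) * n ≤ ⌈(δ : ℝ) / γ⌉₊ * n :=
          mul_le_mul_of_nonneg_right hN1 hnpos.le
        have h5 : (0 : ℝ) ≤ ⌈3 * γ / (δ : ℝ)⌉₊ * n := by positivity
        linarith
      exact_mod_cast this
    · have : (n : ℝ) ≤ ((⌈(δ : ℝ) / γ⌉₊ + ⌈3 * γ / (δ : ℝ)⌉₊ : ℕ) : ℝ) * A := by
        push_cast
        have h3 : (n : ℝ) ≤ (3 * γ / δ) * A := by
          rw [div_mul_eq_mul_div, le_div_iff₀ hδR]; linarith
        have h4 : (3 * γ / (δ : ℝ)) * A ≤ ⌈3 * γ / (δ : ℝ)⌉₊ * A :=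
          mul_le_mul_of_nonneg_right hN2 hAR.le
        have h5 : (0 : ℝ) ≤ ⌈(δ : ℝ) / γ⌉₊ * A := by positivity
        linarith
      exact_mod_cast this

end Pool.Agent.H15Quad
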